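import Pool.Agent.TH494.CQ.Map

/-!
# Filtrations of cocharacters in a chamber
-/

set_option autoImplicit false

namespace Pool.Agent.TH494.CQ

variable {k : Type} [Field k]

/-- the scalar product -/
def dot (x y : Fin 2 → ℚ) : ℚ := x 0 * y 0 + x 1 * y 1

/-- `b'` is obtained from `b` by a Weyl group element, with the coordinate change `g` -/
def Move (b b' : Fin 4 → Fin 4 → k) (g : (Fin 2 → ℚ) → Fin 2 → ℚ) : Prop :=
  IsFrame b' ∧ (∀ v, flt b v = flt b' (g v)) ∧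
    (∀ (s t : ℚ) (v w : Fin 2 → ℚ), g (s • v + t • w) = s • g v + t • g w) ∧
    ∀ v w, dot (g v) (g w) = dot v w

lemma move_id {b : Fin 4 → Fin 4 → k} (hb : IsFrame b) : Move b b id :=
  ⟨hb, fun _ => rfl, fun _ _ _ _ => rfl, fun _ _ => rfl⟩

lemma move_trans {b b' b'' : Fin 4 → Fin 4 → k} {g g' : (Fin 2 → ℚ) → Fin 2 → ℚ}
    (h : Move b b' g) (h' : Move b' b'' g') : Move b b'' (fun v => g' (g v)) := by
  obtain ⟨_, h2, h3, h4⟩ := h
  obtain ⟨k1, k2, k3, k4⟩ := h'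
  exact ⟨k1, fun v => by rw [h2, k2], fun s t v w => by beta_reduce; rw [h3, k3],
    fun v w => by rw [k4, h4]⟩

lemma move_swap {b : Fin 4 → Fin 4 → k} (hb : IsFrame b) :
    Move b ![b 1, b 0, b 3, b 2] (fun v => ![v 1, v 0]) := by
  obtain ⟨h01, h02, h03, h10, h12, h13, h20, h21, h23, h30, h31, h32⟩ := fr_val hb
  have hb' : IsFrame ![b 1, b 0, b 3, b 2] := isFrame_of h10 h13 h12 h03 h02 h32
  refine ⟨hb', fun v => ?_, fun s t v w => ?_, fun v w => ?_⟩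
  · funext c
    ext u
    rw [mem_flt hb, mem_flt hb']
    show _ ↔ (om u (b 3) ≠ 0 → c ≤ v 1) ∧ (om u (b 2) ≠ 0 → c ≤ v 0) ∧
      (om u (b 1) ≠ 0 → c ≤ -v 1) ∧ (om u (b 0) ≠ 0 → c ≤ -v 0)
    tauto
  · funext i
    fin_cases i <;> rfl
  · show v 1 * w 1 + v 0 * w 0 = v 0 * w 0 + v 1 * w 1
    ring

lemma om_neg_right (u v : Fin 4 → k) : om u (-v) = -om u v := by
  simp only [om, Pi.neg_apply]; ring

lemma move_neg0 {b : Fin 4 → Fin 4 → k} (hb : IsFrame b) :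
    Move b ![b 2, b 1, -b 0, b 3] (fun v => ![-v 0, v 1]) := by
  obtain ⟨h01, h02, h03, h10, h12, h13, h20, h21, h23, h30, h31, h32⟩ := fr_val hb
  have hb' : IsFrame ![b 2, b 1, -b 0, b 3] := by
    refine isFrame_of h21 ?_ h23 ?_ h13 ?_
    · show om (b 2) (-b 0) = 1
      rw [om_neg_right, h20, neg_neg]
    · show om (b 1) (-b 0) = 0
      rw [om_neg_right, h10, neg_zero]
    · show om (-b 0) (b 3) = 0
      rw [om_swap, om_neg_right, h30, neg_zero, neg_zero]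
  refine ⟨hb', fun v => ?_, fun s t v w => ?_, fun v w => ?_⟩
  · funext c
    ext u
    rw [mem_flt hb, mem_flt hb']
    show _ ↔ (om u (-b 0) ≠ 0 → c ≤ -v 0) ∧ (om u (b 3) ≠ 0 → c ≤ v 1) ∧
      (om u (b 2) ≠ 0 → c ≤ - -v 0) ∧ (om u (b 1) ≠ 0 → c ≤ -v 1)
    rw [om_neg_right, neg_ne_zero, neg_neg]
    tauto
  · funext i
    fin_cases i
    · show -(s * v 0 + t * w 0) = s * -v 0 + t * -w 0
      ring
    · rfl
  · show -v 0 * -w 0 + v 1 * w 1 = v 0 * w 0 + v 1 * w 1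
    ring

lemma move_neg1 {b : Fin 4 → Fin 4 → k} (hb : IsFrame b) :
    Move b ![b 0, b 3, b 2, -b 1] (fun v => ![v 0, -v 1]) := by
  obtain ⟨h01, h02, h03, h10, h12, h13, h20, h21, h23, h30, h31, h32⟩ := fr_val hb
  have hb' : IsFrame ![b 0, b 3, b 2, -b 1] := by
    refine isFrame_of h03 h02 ?_ h32 ?_ ?_
    · show om (b 0) (-b 1) = 0
      rw [om_neg_right, h01, neg_zero]
    · show om (b 3) (-b 1) = 1
      rw [om_neg_right, h31, neg_neg]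
    · show om (b 2) (-b 1) = 0
      rw [om_neg_right, h21, neg_zero]
  refine ⟨hb', fun v => ?_, fun s t v w => ?_, fun v w => ?_⟩
  · funext c
    ext u
    rw [mem_flt hb, mem_flt hb']
    show _ ↔ (om u (b 2) ≠ 0 → c ≤ v 0) ∧ (om u (-b 1) ≠ 0 → c ≤ -v 1) ∧
      (om u (b 0) ≠ 0 → c ≤ -v 0) ∧ (om u (b 3) ≠ 0 → c ≤ - -v 1)
    rw [om_neg_right, neg_ne_zero, neg_neg]
    tauto
  · funext i
    fin_cases i
    · rfl
    · show -(s * v 1 + t * w 1) = s * -v 1 + t * -w 1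
      ring
  · show v 0 * w 0 + -v 1 * -w 1 = v 0 * w 0 + v 1 * w 1
    ring

/-- every cocharacter lies in the closed chamber of some symplectic basis of the same torus -/
lemma exists_move {b : Fin 4 → Fin 4 → k} (hb : IsFrame b) (x : Fin 2 → ℚ) :
    ∃ b' g, Move b b' g ∧ 0 ≤ g x 1 ∧ g x 1 ≤ g x 0 := by
  have s1 : ∃ b' g, Move b b' g ∧ 0 ≤ g x 0 := by
    by_cases h : 0 ≤ x 0
    · exact ⟨b, id, move_id hb, h⟩
    · refine ⟨_, _, move_neg0 hb, ?_⟩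
      show 0 ≤ -x 0
      linarith
  obtain ⟨b1, g1, m1, p1⟩ := s1
  have s2 : ∃ b' g, Move b b' g ∧ 0 ≤ g x 0 ∧ 0 ≤ g x 1 := by
    by_cases h : 0 ≤ g1 x 1
    · exact ⟨b1, g1, m1, p1, h⟩
    · refine ⟨_, _, move_trans m1 (move_neg1 m1.1), p1, ?_⟩
      show 0 ≤ -g1 x 1
      linarith
  obtain ⟨b2, g2, m2, p2, p3⟩ := s2
  by_cases h : g2 x 1 ≤ g2 x 0
  · exact ⟨b2, g2, m2, p3, h⟩
  · refine ⟨_, _, move_trans m2 (move_swap m2.1), p2, ?_⟩
    show g2 x 0 ≤ g2 x 1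
    linarith

/-- the same flag -/
def SameFlag (b b' : Fin 4 → Fin 4 → k) : Prop :=
  (∀ u, om u (b 0) = 0 ↔ om u (b' 0) = 0) ∧
  (∀ u, (om u (b 0) = 0 ∧ om u (b 1) = 0) ↔ (om u (b' 0) = 0 ∧ om u (b' 1) = 0)) ∧
  ∀ u, (om u (b 0) = 0 ∧ om u (b 1) = 0 ∧ om u (b 3) = 0) ↔
    (om u (b' 0) = 0 ∧ om u (b' 1) = 0 ∧ om u (b' 3) = 0)

lemma mem1 {b : Fin 4 → Fin 4 → k} (hb : IsFrame b) {x : Fin 2 → ℚ} {c : ℚ} (u : Fin 4 → k)
    (h1 : 0 ≤ x 1) (_h2 : x 1 ≤ x 0) (hc1 : -x 0 < c) (hc2 : c ≤ -x 1) :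
    u ∈ flt b x c ↔ om u (b 0) = 0 := by
  rw [mem_flt hb]
  constructor
  · rintro ⟨_, _, h, _⟩
    by_contra hne
    linarith [h hne]
  · intro h
    exact ⟨fun _ => by linarith, fun _ => by linarith, fun h' => absurd h h', fun _ => hc2⟩

lemma mem2 {b : Fin 4 → Fin 4 → k} (hb : IsFrame b) {x : Fin 2 → ℚ} {c : ℚ} (u : Fin 4 → k)
    (h2 : x 1 ≤ x 0) (hc1 : -x 1 < c) (hc2 : c ≤ x 1) :
    u ∈ flt b x c ↔ om u (b 0) = 0 ∧ om u (b 1) = 0 := by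
  rw [mem_flt hb]
  constructor
  · rintro ⟨_, _, h, h'⟩
    constructor
    · by_contra hne
      linarith [h hne]
    · by_contra hne
      linarith [h' hne]
  · rintro ⟨h, h'⟩
    exact ⟨fun _ => by linarith, fun _ => hc2, fun h'' => absurd h h'', fun h'' => absurd h' h''⟩

lemma mem3 {b : Fin 4 → Fin 4 → k} (hb : IsFrame b) {x : Fin 2 → ℚ} {c : ℚ} (u : Fin 4 → k)
    (h1 : 0 ≤ x 1) (_h2 : x 1 ≤ x 0) (hc1 : x 1 < c) (hc2 : c ≤ x 0) :
    u ∈ flt b x c ↔ om u (b 0) = 0 ∧ om u (b 1) = 0 ∧ om u (b 3) = 0 := by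
  rw [mem_flt hb]
  constructor
  · rintro ⟨_, h3, h, h'⟩
    refine ⟨?_, ?_, ?_⟩
    · by_contra hne
      linarith [h hne]
    · by_contra hne
      linarith [h' hne]
    · by_contra hne
      linarith [h3 hne]
  · rintro ⟨h, h', h3⟩
    exact ⟨fun _ => hc2, fun h'' => absurd h3 h'', fun h'' => absurd h h'', fun h'' => absurd h' h''⟩

lemma mem4 {b : Fin 4 → Fin 4 → k} (hb : IsFrame b) {x : Fin 2 → ℚ} {c : ℚ} (u : Fin 4 → k)
    (h1 : 0 ≤ x 1) (h2 : x 1 ≤ x 0) (hc1 : x 0 < c) : u ∈ flt b x c ↔ u = 0 := by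
  rw [mem_flt hb]
  constructor
  · rintro ⟨h2', h3, h, h'⟩
    refine frame_sep hb u fun i => ?_
    fin_cases i
    · show om u (b 0) = 0
      by_contra hne
      linarith [h hne]
    · show om u (b 1) = 0
      by_contra hne
      linarith [h' hne]
    · show om u (b 2) = 0
      by_contra hne
      linarith [h2' hne]
    · show om u (b 3) = 0
      by_contra hne
      linarith [h3 hne]
  · rintro rfl
    simp [om_zero_left]

/-- the filtration of a cocharacter in the closed chamber depends only on the flag -/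
lemma flt_of_flag {b b' : Fin 4 → Fin 4 → k} (hb : IsFrame b) (hb' : IsFrame b')
    (h : SameFlag b b') {v : Fin 2 → ℚ} (h1 : 0 ≤ v 1) (h2 : v 1 ≤ v 0) : flt b v = flt b' v := by
  obtain ⟨e1, e2, e3⟩ := h
  funext c
  ext u
  by_cases c1 : c ≤ -v 0
  · rw [mem_flt hb, mem_flt hb']
    constructor <;> intro _ <;>
      exact ⟨fun _ => by linarith, fun _ => by linarith, fun _ => by linarith, fun _ => by linarith⟩
  · rw [not_le] at c1
    by_cases c2 : c ≤ -v 1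
    · rw [mem1 hb u h1 h2 c1 c2, mem1 hb' u h1 h2 c1 c2, e1]
    · rw [not_le] at c2
      by_cases c3 : c ≤ v 1
      · rw [mem2 hb u h2 c2 c3, mem2 hb' u h2 c2 c3, e2]
      · rw [not_le] at c3
        by_cases c4 : c ≤ v 0
        · rw [mem3 hb u h1 h2 c3 c4, mem3 hb' u h1 h2 c3 c4, e3]
        · rw [not_le] at c4
          rw [mem4 hb u h1 h2 c4, mem4 hb' u h1 h2 c4]

lemma fr_ne {b : Fin 4 → Fin 4 → k} (hb : IsFrame b) : b 0 ≠ 0 ∧ b 1 ≠ 0 := by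
  obtain ⟨h01, h02, h03, h10, h12, h13, h20, h21, h23, h30, h31, h32⟩ := fr_val hb
  constructor
  · intro h
    rw [h, om_zero_left] at h02
    exact zero_ne_one h02
  · intro h
    rw [h, om_zero_left] at h13
    exact zero_ne_one h13

/-- the first two vectors do not lie on one line -/
lemma not_both {b b' : Fin 4 → Fin 4 → k} (hb : IsFrame b) (hb' : IsFrame b')
    (h0 : om (b 0) (b' 0) = 0 ∧ om (b 0) (b' 1) = 0 ∧ om (b 0) (b' 3) = 0)
    (h1 : om (b 1) (b' 0) = 0 ∧ om (b 1) (b' 1) = 0 ∧ om (b 1) (b' 3) = 0) : False := by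
  obtain ⟨h01, h02, h03, h10, h12, h13, h20, h21, h23, h30, h31, h32⟩ := fr_val hb
  have e0 := expand hb' (b 0)
  have e1 := expand hb' (b 1)
  rw [h0.1, h0.2.1, h0.2.2] at e0
  rw [h1.1, h1.2.1, h1.2.2] at e1
  simp only [zero_smul, add_zero, sub_zero] at e0 e1
  have f0 : om (b 0) (b 2) = om (b 0) (b' 2) * om (b' 0) (b 2) := by
    conv_lhs => rw [e0, om_smul_left]
  have f1 : om (b 1) (b 2) = om (b 1) (b' 2) * om (b' 0) (b 2) := by
    conv_lhs => rw [e1, om_smul_left]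
  rw [h02] at f0
  rw [h12] at f1
  have hne : om (b' 0) (b 2) ≠ 0 := by
    intro h
    rw [h, mul_zero] at f0
    exact one_ne_zero f0
  have h5 : om (b 1) (b' 2) = 0 := by
    rcases mul_eq_zero.1 f1.symm with h | h
    · exact h
    · exact absurd h hne
  rw [h5, zero_smul] at e1
  exact (fr_ne hb).2 e1

/-- a regular cocharacter is determined by its filtration, and its flag as well -/
lemma lemC {b b' : Fin 4 → Fin 4 → k} (hb : IsFrame b) (hb' : IsFrame b') {x z : Fin 2 → ℚ}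
    (hx1 : 0 ≤ x 1) (hx2 : x 1 ≤ x 0) (hz1 : 0 < z 1) (hz2 : z 1 < z 0)
    (h : flt b x = flt b' z) : x = z ∧ SameFlag b b' := by
  have hm : ∀ {b : Fin 4 → Fin 4 → k} (x : Fin 2 → ℚ) (i : Fin 4), b i ∈ flt b x (wt x i) :=
    fun x i => Submodule.subset_span ⟨i, le_rfl, rfl⟩
  have e0 : x 0 = z 0 := by
    apply le_antisymm
    · by_contra hcon
      rw [not_le] at hcon
      have h1 : b 0 ∈ flt b' z (x 0) := by
        rw [← h]
        exact hm x 0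
      rw [mem4 hb' _ hz1.le hz2.le hcon] at h1
      exact (fr_ne hb).1 h1
    · by_contra hcon
      rw [not_le] at hcon
      have h1 : b' 0 ∈ flt b x (z 0) := by
        rw [h]
        exact hm z 0
      rw [mem4 hb _ hx1 hx2 hcon] at h1
      exact (fr_ne hb').1 h1
  have e1 : x 1 = z 1 := by
    apply le_antisymm
    · by_contra hcon
      rw [not_le] at hcon
      have h0 : b 0 ∈ flt b' z (x 1) := by
        rw [← h, mem_flt hb]
        obtain ⟨h01, h02, h03, h10, h12, h13, h20, h21, h23, h30, h31, h32⟩ := fr_val hb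
        rw [h03, om_self, h01]
        exact ⟨fun _ => hx2, fun h => absurd rfl h, fun h => absurd rfl h, fun h => absurd rfl h⟩
      have h1 : b 1 ∈ flt b' z (x 1) := by
        rw [← h]
        exact hm x 1
      rw [mem3 hb' _ hz1.le hz2.le hcon (by linarith)] at h0 h1
      exact not_both hb hb' h0 h1
    · by_contra hcon
      rw [not_le] at hcon
      have h0 : b' 0 ∈ flt b x (z 1) := by
        rw [h, mem_flt hb']
        obtain ⟨h01, h02, h03, h10, h12, h13, h20, h21, h23, h30, h31, h32⟩ := fr_val hb'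
        rw [h03, om_self, h01]
        exact ⟨fun _ => hz2.le, fun h => absurd rfl h, fun h => absurd rfl h, fun h => absurd rfl h⟩
      have h1 : b' 1 ∈ flt b x (z 1) := by
        rw [h]
        exact hm z 1
      rw [mem3 hb _ hx1 hx2 hcon (by linarith)] at h0 h1
      exact not_both hb' hb h0 h1
  have hxz : x = z := by
    funext i
    fin_cases i
    · exact e0
    · exact e1
  refine ⟨hxz, ?_⟩
  subst hxz
  refine ⟨fun u => ?_, fun u => ?_, fun u => ?_⟩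
  · rw [← mem1 hb u hx1 hx2 (by linarith : -x 0 < -x 1) le_rfl, h,
      mem1 hb' u hx1 hx2 (by linarith : -x 0 < -x 1) le_rfl]
  · rw [← mem2 hb u hx2 (by linarith : -x 1 < x 1) le_rfl, h,
      mem2 hb' u hx2 (by linarith : -x 1 < x 1) le_rfl]
  · rw [← mem3 hb u hx1 hx2 hz2 le_rfl, h, mem3 hb' u hx1 hx2 hz2 le_rfl]

/-- if the flag is the same and the filtration is regular, the cocharacter is in the chamber -/
lemma lemE {b b' : Fin 4 → Fin 4 → k} (hb : IsFrame b) (hb' : IsFrame b') (hF : SameFlag b b')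
    {y w : Fin 2 → ℚ} (hw1 : 0 < w 1) (hw2 : w 1 < w 0) (h : flt b y = flt b' w) :
    0 ≤ y 1 ∧ y 1 ≤ y 0 := by
  obtain ⟨h01, h02, h03, h10, h12, h13, h20, h21, h23, h30, h31, h32⟩ := fr_val hb
  obtain ⟨e1, e2, e3⟩ := hF
  have k0 : b 0 ∈ flt b y (w 0) := by
    rw [h, mem3 hb' _ hw1.le hw2.le hw2 le_rfl, ← e3]
    exact ⟨om_self _, h01, h03⟩
  have k1 : b 1 ∈ flt b y (w 1) := by
    rw [h, mem2 hb' _ hw2.le (by linarith) le_rfl, ← e2]
    exact ⟨h10, om_self _⟩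
  rw [mem_flt hb] at k0 k1
  have l0 : w 0 ≤ y 0 := k0.1 (by rw [h02]; exact one_ne_zero)
  have l1 : w 1 ≤ y 1 := k1.2.1 (by rw [h13]; exact one_ne_zero)
  refine ⟨by linarith, ?_⟩
  by_contra hcon
  rw [not_le] at hcon
  have k2 : b 1 ∈ flt b' w (y 1) := by
    rw [← h]
    exact Submodule.subset_span ⟨1, le_rfl, rfl⟩
  rw [mem4 hb' _ hw1.le hw2.le (by linarith)] at k2
  exact (fr_ne hb).2 k2

/-- cocharacters in the closed chamber are determined by their filtration -/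
lemma lemN {b b' : Fin 4 → Fin 4 → k} (hb : IsFrame b) (hb' : IsFrame b') {x z : Fin 2 → ℚ}
    (hx1 : 0 ≤ x 1) (hx2 : x 1 ≤ x 0) (hz1 : 0 ≤ z 1) (hz2 : z 1 ≤ z 0)
    (h : flt b x = flt b' z) : x = z := by
  have hm : ∀ {b : Fin 4 → Fin 4 → k} (x : Fin 2 → ℚ) (i : Fin 4), b i ∈ flt b x (wt x i) :=
    fun x i => Submodule.subset_span ⟨i, le_rfl, rfl⟩
  have a0 : ∀ {b b' : Fin 4 → Fin 4 → k} (_ : IsFrame b) (_ : IsFrame b') {x z : Fin 2 → ℚ}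
      (_ : 0 ≤ x 1) (_ : x 1 ≤ x 0) (_ : 0 ≤ z 1) (_ : z 1 ≤ z 0) (_ : flt b x = flt b' z),
      x 0 ≤ z 0 := by
    intro b b' hb hb' x z hx1 hx2 hz1 hz2 h
    by_contra hcon
    rw [not_le] at hcon
    have h1 : b 0 ∈ flt b' z (x 0) := by
      rw [← h]
      exact hm x 0
    rw [mem4 hb' _ hz1 hz2 hcon] at h1
    exact (fr_ne hb).1 h1
  have a1 : ∀ {b b' : Fin 4 → Fin 4 → k} (_ : IsFrame b) (_ : IsFrame b') {x z : Fin 2 → ℚ}
      (_ : 0 ≤ x 1) (_ : x 1 ≤ x 0) (_ : 0 ≤ z 1) (_ : z 1 ≤ z 0) (_ : flt b x = flt b' z)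
      (_ : x 0 ≤ z 0), x 1 ≤ z 1 := by
    intro b b' hb hb' x z hx1 hx2 hz1 hz2 h hle
    by_contra hcon
    rw [not_le] at hcon
    have h0 : b 0 ∈ flt b' z (x 1) := by
      rw [← h, mem_flt hb]
      obtain ⟨h01, h02, h03, h10, h12, h13, h20, h21, h23, h30, h31, h32⟩ := fr_val hb
      rw [h03, om_self, h01]
      exact ⟨fun _ => hx2, fun h => absurd rfl h, fun h => absurd rfl h, fun h => absurd rfl h⟩
    have h1 : b 1 ∈ flt b' z (x 1) := by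
      rw [← h]
      exact hm x 1
    rw [mem3 hb' _ hz1 hz2 hcon (by linarith)] at h0 h1
    exact not_both hb hb' h0 h1
  have e0 : x 0 = z 0 :=
    le_antisymm (a0 hb hb' hx1 hx2 hz1 hz2 h) (a0 hb' hb hz1 hz2 hx1 hx2 h.symm)
  have e1 : x 1 = z 1 := le_antisymm (a1 hb hb' hx1 hx2 hz1 hz2 h e0.le)
    (a1 hb' hb hz1 hz2 hx1 hx2 h.symm e0.ge)
  funext i
  fin_cases i
  · exact e0
  · exact e1

lemma dot_self_zero {x : Fin 2 → ℚ} (h : dot x x = 0) : x = 0 := by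
  unfold dot at h
  funext i
  fin_cases i
  · show x 0 = 0
    nlinarith [mul_self_nonneg (x 0), mul_self_nonneg (x 1)]
  · show x 1 = 0
    nlinarith [mul_self_nonneg (x 0), mul_self_nonneg (x 1)]

lemma dot_self_nonneg (x : Fin 2 → ℚ) : 0 ≤ dot x x :=
  add_nonneg (mul_self_nonneg _) (mul_self_nonneg _)

/-- the length of a cocharacter is determined by its filtration -/
lemma dot_eq {b b' : Fin 4 → Fin 4 → k} (hb : IsFrame b) (hb' : IsFrame b') {x z : Fin 2 → ℚ}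
    (h : flt b x = flt b' z) : dot x x = dot z z := by
  obtain ⟨c, g, hM, g1, g2⟩ := exists_move hb x
  obtain ⟨c', g', hM', g1', g2'⟩ := exists_move hb' z
  have h1 : flt c (g x) = flt c' (g' z) := by rw [← hM.2.1, h, hM'.2.1]
  have h2 := lemN hM.1 hM'.1 g1 g2 g1' g2' h1
  rw [← hM.2.2.2 x x, h2, hM'.2.2.2]

lemma flt_zero_right {b b' : Fin 4 → Fin 4 → k} (hb : IsFrame b) (hb' : IsFrame b')
    {x : Fin 2 → ℚ} (h : flt b x = flt b' 0) : x = 0 :=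
  dot_self_zero (by rw [dot_eq hb hb' h]; simp [dot])

lemma flt_zero {b b' : Fin 4 → Fin 4 → k} (hb : IsFrame b) (hb' : IsFrame b') :
    flt b 0 = flt b' 0 := by
  funext c
  ext u
  by_cases hc : c ≤ 0
  · rw [mem_flt hb, mem_flt hb']
    simp [hc]
  · rw [not_le] at hc
    rw [mem4 hb u le_rfl le_rfl hc, mem4 hb' u le_rfl le_rfl hc]

/-- the closed cone -/
def D1 : Set (Fin 2 → ℚ) := {x | 0 ≤ x 1 ∧ 2 * x 1 ≤ x 0 ∧ x 0 ≤ 3 * x 1}

lemma D1_cham {x : Fin 2 → ℚ} (hx : x ∈ D1) : 0 ≤ x 1 ∧ x 1 ≤ x 0 := by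
  obtain ⟨h1, h2, h3⟩ := hx
  exact ⟨h1, by linarith⟩

lemma D1_reg {x : Fin 2 → ℚ} (hx : x ∈ D1) (h0 : x ≠ 0) : 0 < x 1 ∧ x 1 < x 0 := by
  obtain ⟨h1, h2, h3⟩ := hx
  have h4 : 0 < x 1 := by
    refine lt_of_le_of_ne h1 fun h => h0 ?_
    have h5 : x 0 = 0 := by linarith
    funext i
    fin_cases i
    · exact h5
    · exact h.symm
  exact ⟨h4, by linarith⟩

lemma D1_zero : (0 : Fin 2 → ℚ) ∈ D1 := by
  refine ⟨le_rfl, ?_, ?_⟩
  · show (2 : ℚ) * 0 ≤ 0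
    norm_num
  · show (0 : ℚ) ≤ 3 * 0
    norm_num

lemma D1_comb {x y : Fin 2 → ℚ} (hx : x ∈ D1) (hy : y ∈ D1) {s t : ℚ} (hs : 0 ≤ s) (ht : 0 ≤ t) :
    s • x + t • y ∈ D1 := by
  obtain ⟨a1, a2, a3⟩ := hx
  obtain ⟨c1, c2, c3⟩ := hy
  refine ⟨?_, ?_, ?_⟩
  · show 0 ≤ s * x 1 + t * y 1
    exact add_nonneg (mul_nonneg hs a1) (mul_nonneg ht c1)
  · show 2 * (s * x 1 + t * y 1) ≤ s * x 0 + t * y 0
    nlinarith [mul_le_mul_of_nonneg_left a2 hs, mul_le_mul_of_nonneg_left c2 ht]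
  · show s * x 0 + t * y 0 ≤ 3 * (s * x 1 + t * y 1)
    nlinarith [mul_le_mul_of_nonneg_left a3 hs, mul_le_mul_of_nonneg_left c3 ht]

lemma D1_smul {x : Fin 2 → ℚ} (hx : x ∈ D1) {s : ℚ} (hs : 0 ≤ s) : s • x ∈ D1 := by
  have h := D1_comb hx D1_zero hs le_rfl
  rwa [smul_zero, add_zero] at h

/-- two cocharacters of one torus, both in the cone over `b0` -/
lemma comb_flt {b b0 : Fin 4 → Fin 4 → k} (hb : IsFrame b) (hb0 : IsFrame b0)
    {x y z w : Fin 2 → ℚ} (hz : z ∈ D1) (hw : w ∈ D1) (h : flt b x = flt b0 z)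
    (h' : flt b y = flt b0 w) {s t : ℚ} (hs : 0 ≤ s) (ht : 0 ≤ t) :
    flt b (s • x + t • y) = flt b0 (s • z + t • w) := by
  have scale : ∀ {x z : Fin 2 → ℚ} (_ : flt b x = flt b0 z) {s : ℚ} (_ : 0 ≤ s),
      flt b (s • x) = flt b0 (s • z) := by
    intro x z h s hs
    rcases hs.eq_or_lt with rfl | hs
    · rw [zero_smul, zero_smul]
      exact flt_zero hb hb0
    · exact flt_scale h hs
  by_cases hz0 : z = 0
  · subst hz0
    have hx0 := flt_zero_right hb hb0 h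
    rw [hx0, smul_zero, zero_add, zero_add]
    exact scale h' ht
  obtain ⟨b', g, hM, g1, g2⟩ := exists_move hb x
  have h1 : flt b' (g x) = flt b0 z := by rw [← hM.2.1, h]
  have h2 : flt b' (g y) = flt b0 w := by rw [← hM.2.1, h']
  obtain ⟨z1, z2⟩ := D1_reg hz hz0
  obtain ⟨e1, hF⟩ := lemC hM.1 hb0 g1 g2 z1 z2 h1
  have e2 : g y = w := by
    by_cases hw0 : w = 0
    · subst hw0
      exact flt_zero_right hM.1 hb0 h2
    · obtain ⟨w1, w2⟩ := D1_reg hw hw0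
      obtain ⟨y1, y2⟩ := lemE hM.1 hb0 hF w1 w2 h2
      exact (lemC hM.1 hb0 y1 y2 w1 w2 h2).1
  rw [hM.2.1, hM.2.2.1, e1, e2]
  obtain ⟨c1, c2⟩ := D1_cham (D1_comb hz hw hs ht)
  exact flt_of_flag hM.1 hb0 hF c1 c2

/-- a vector near the cone, normalized -/
lemma real_near1 {u0 u1 v0 v1 ε δ : ℝ} (hε : 0 < ε) (hδ : ε ≤ δ / 10) (d1 : 0 ≤ v1)
    (d2 : 2 * v1 ≤ v0) (d3 : v0 ≤ 3 * v1) (h1 : δ ^ 2 ≤ u0 ^ 2 + u1 ^ 2)
    (h2 : (u0 - v0) ^ 2 + (u1 - v1) ^ 2 ≤ ε ^ 2) :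
    0 < u1 ∧ u1 < u0 ∧ -(3 * ε) ≤ u0 - 2 * u1 ∧ -(4 * ε) ≤ 3 * u1 - u0 := by
  have e0 := abs_le.1 (abs_le_of_sq_le_sq (a := u0 - v0) (b := ε)
    (by linarith [sq_nonneg (u1 - v1)]) hε.le)
  have e1 := abs_le.1 (abs_le_of_sq_le_sq (a := u1 - v1) (b := ε)
    (by linarith [sq_nonneg (u0 - v0)]) hε.le)
  obtain ⟨a1, a2⟩ := e0
  obtain ⟨c1, c2⟩ := e1
  have hv : 2 * ε < v1 := by
    by_contra hcon
    rw [not_lt] at hcon
    have k0 : u0 ^ 2 ≤ (7 * ε) ^ 2 := sq_le_sq' (by linarith) (by linarith)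
    have k1 : u1 ^ 2 ≤ (3 * ε) ^ 2 := sq_le_sq' (by linarith) (by linarith)
    have k2 : (10 * ε) ^ 2 ≤ δ ^ 2 := pow_le_pow_left₀ (by linarith) (by linarith) 2
    have k3 : 0 < ε ^ 2 := by positivity
    nlinarith
  refine ⟨by linarith, by linarith, by linarith, by linarith⟩

/-- a vector near the cone -/
lemma real_near {x0 x1 w0 w1 N M ε δ : ℝ} (hN : 0 < N) (hM : 0 < M) (hε : 0 < ε)
    (hδ : ε ≤ δ / 10) (d1 : 0 ≤ w1) (d2 : 2 * w1 ≤ w0) (d3 : w0 ≤ 3 * w1)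
    (h1 : δ ^ 2 * N ^ 2 ≤ x0 * x0 + x1 * x1)
    (h2 : (x0 * x0 + x1 * x1) / N ^ 2 - 2 * ((x0 * w0 + x1 * w1) / (N * M)) +
      (w0 * w0 + w1 * w1) / M ^ 2 ≤ ε ^ 2) :
    0 < x1 ∧ x1 < x0 ∧ -(3 * ε * N) ≤ x0 - 2 * x1 ∧ -(4 * ε * N) ≤ 3 * x1 - x0 := by
  have hN0 := hN.ne'
  have hM0 := hM.ne'
  have k1 : (x0 * x0 + x1 * x1) / N ^ 2 - 2 * ((x0 * w0 + x1 * w1) / (N * M)) +
      (w0 * w0 + w1 * w1) / M ^ 2 = (x0 / N - w0 / M) ^ 2 + (x1 / N - w1 / M) ^ 2 := by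
    field_simp
    ring
  rw [k1] at h2
  have k2 : δ ^ 2 ≤ (x0 / N) ^ 2 + (x1 / N) ^ 2 := by
    have : (x0 / N) ^ 2 + (x1 / N) ^ 2 = (x0 * x0 + x1 * x1) / N ^ 2 := by
      field_simp
    rw [this, le_div_iff₀ (by positivity)]
    exact h1
  have f2 : 2 * (w1 / M) ≤ w0 / M := by
    rw [← mul_div_assoc]
    exact div_le_div_of_nonneg_right d2 hM.le
  have f3 : w0 / M ≤ 3 * (w1 / M) := by
    rw [← mul_div_assoc]
    exact div_le_div_of_nonneg_right d3 hM.le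
  obtain ⟨g1, g2, g3, g4⟩ := real_near1 hε hδ (div_nonneg d1 hM.le) f2 f3 k2 h2
  have hx0 : x0 = (x0 / N) * N := by field_simp
  have hx1 : x1 = (x1 / N) * N := by field_simp
  refine ⟨?_, ?_, ?_, ?_⟩
  · rw [hx1]
    exact mul_pos g1 hN
  · rw [hx0, hx1]
    exact mul_lt_mul_of_pos_right g2 hN
  · have := mul_le_mul_of_nonneg_right g3 hN.le
    rw [sub_mul, mul_assoc 2, ← hx0, ← hx1] at this
    linarith
  · have := mul_le_mul_of_nonneg_right g4 hN.le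
    rw [sub_mul, mul_assoc 3, ← hx0, ← hx1] at this
    linarith

/-- a cocharacter near the cone -/
lemma near_flt {b b0 : Fin 4 → Fin 4 → k} (hb : IsFrame b) (hb0 : IsFrame b0)
    {x y w : Fin 2 → ℚ} (hw : w ∈ D1) (h : flt b y = flt b0 w) {N M ε δ : ℝ} (hN : 0 < N)
    (hM : 0 < M) (hε : 0 < ε) (hδ : ε ≤ δ / 10) (h1 : δ ^ 2 * N ^ 2 ≤ (dot x x : ℝ))
    (h2 : (dot x x : ℝ) / N ^ 2 - 2 * ((dot x y : ℝ) / (N * M)) + (dot y y : ℝ) / M ^ 2 ≤ ε ^ 2) :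
    ∃ X : Fin 2 → ℚ, 0 ≤ X 1 ∧ X 1 ≤ X 0 ∧ flt b x = flt b0 X ∧
      -(3 * ε * N) ≤ (X 0 : ℝ) - 2 * X 1 ∧ -(4 * ε * N) ≤ 3 * (X 1 : ℝ) - X 0 := by
  obtain ⟨b', g, hMv, g1, g2⟩ := exists_move hb y
  have h3 : flt b' (g y) = flt b0 w := by rw [← hMv.2.1, h]
  obtain ⟨w1, w2⟩ := D1_cham hw
  have hgy : g y = w := lemN hMv.1 hb0 g1 g2 w1 w2 h3
  rw [← hMv.2.2.2 x x, ← hMv.2.2.2 x y, ← hMv.2.2.2 y y, hgy] at h2
  rw [← hMv.2.2.2 x x] at h1
  obtain ⟨d1, d2, d3⟩ := hw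
  have d1' : (0 : ℝ) ≤ w 1 := by exact_mod_cast d1
  have d2' : 2 * (w 1 : ℝ) ≤ w 0 := by exact_mod_cast d2
  have d3' : (w 0 : ℝ) ≤ 3 * w 1 := by exact_mod_cast d3
  unfold dot at h1 h2
  push_cast at h1 h2
  obtain ⟨r1, r2, r3, r4⟩ := real_near hN hM hε hδ d1' d2' d3' h1 h2
  have q1 : 0 < g x 1 := by exact_mod_cast r1
  have q2 : g x 1 < g x 0 := by exact_mod_cast r2
  refine ⟨g x, q1.le, q2.le, ?_, r3, r4⟩
  have hw0 : w ≠ 0 := by
    rintro rfl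
    have hg : g y = 0 := hgy
    simp only [Pi.zero_apply, Rat.cast_zero, mul_zero, add_zero, zero_div, sub_zero] at h2
    have h5 : δ ^ 2 ≤ ε ^ 2 := by
      refine le_trans ?_ h2
      rw [le_div_iff₀ (by positivity)]
      exact h1
    have h6 : (10 * ε) ^ 2 ≤ δ ^ 2 := pow_le_pow_left₀ (by linarith) (by linarith) 2
    have h7 : 0 < ε ^ 2 := by positivity
    nlinarith
  obtain ⟨w1', w2'⟩ := D1_reg ⟨d1, d2, d3⟩ hw0
  obtain ⟨-, hF⟩ := lemC hMv.1 hb0 g1 g2 w1' w2' h3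
  rw [hMv.2.1]
  exact flt_of_flag hMv.1 hb0 hF q1.le q2.le

end Pool.Agent.TH494.CQ
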