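import Mathlib

/-!
# The rational spherical building of the group `Sp₄ⁿ`

Let `k` be a field and `V = k⁴` with the standard symplectic form `om`. The maximal tori of `Sp₄`
correspond to the decompositions of `V` into the four lines spanned by the members of a symplectic
basis (`IsFrame`), and for a symplectic basis `b` the rational cocharacters of the torus correspond
to the vectors `x ∈ ℚ²`: the cocharacter `x` acts on `b j` with weight `wt x j`, where
`wt x = (x 0, x 1, -x 0, -x 1)`. Two rational cocharacters give the same point of the vector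
building if and only if they define the same filtration `flt b x` of `V` by the subspaces spanned by
the vectors of weight at least `c`; their parabolic subgroup is the stabilizer of the filtration.

For `G = Sp₄ⁿ` a maximal torus is given by a symplectic basis `b i` for each factor `i`, and its
rational cocharacters by the vectors `x = (x i)`, `x i ∈ ℚ²`. A point of the rational building
`Δ(ℚ)` is the direction of a nonzero rational cocharacter; we take it to be the ray `ray b x` of
the families of filtrations `flt (b i) (t x i)`, `t > 0`.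
-/

set_option autoImplicit false

namespace Pool.Agent.TH494.CQ

section

variable {k : Type} [Field k]

/-- The standard symplectic form on `k⁴`. -/
def om (u v : Fin 4 → k) : k := u 0 * v 2 - u 2 * v 0 + (u 1 * v 3 - u 3 * v 1)

/-- `b` is a symplectic basis of `k⁴`: the values `om (b i) (b j)` are those of the standard basis,
`om (b 0) (b 2) = om (b 1) (b 3) = 1` and so on. -/
def IsFrame (b : Fin 4 → Fin 4 → k) : Prop :=
  ∀ i j, om (b i) (b j) = om (Pi.single i (1 : k)) (Pi.single j (1 : k))

/-- The weights of the cocharacter `x ∈ ℚ²` on the four vectors of a symplectic basis. -/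
def wt (x : Fin 2 → ℚ) : Fin 4 → ℚ := ![x 0, x 1, -x 0, -x 1]

/-- The filtration of `k⁴` defined by the cocharacter `x` of the torus given by `b`: the `c`-th
subspace is spanned by the basis vectors of weight at least `c`. -/
def flt (b : Fin 4 → Fin 4 → k) (x : Fin 2 → ℚ) (c : ℚ) : Submodule k (Fin 4 → k) :=
  Submodule.span k {v | ∃ i, c ≤ wt x i ∧ v = b i}

/-- The direction of the rational cocharacter `x = (x i)` of the torus of `Sp₄ⁿ` given by the
symplectic bases `b i`: all families of filtrations `flt (b i) (t x i)`, `t > 0`. -/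
def ray {n : ℕ} (b : Fin n → Fin 4 → Fin 4 → k) (x : Fin n → Fin 2 → ℚ) :
    Set (Fin n → ℚ → Submodule k (Fin 4 → k)) :=
  {F | ∃ t : ℚ, 0 < t ∧ ∀ i, F i = flt (b i) (t • x i)}

end

/-- The rational building `Δ(ℚ)` of `Sp₄ⁿ` over `k`: the directions of the nonzero rational
cocharacters. -/
def Pt (k : Type) [Field k] (n : ℕ) : Type :=
  {p : Set (Fin n → ℚ → Submodule k (Fin 4 → k)) //
    ∃ b x, (∀ i, IsFrame (b i)) ∧ x ≠ 0 ∧ p = ray b x}

section

variable {k : Type} [Field k] {n : ℕ}

/-- The apartment of the torus given by `b`: the directions of its nonzero rational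
cocharacters. -/
def apt (b : Fin n → Fin 4 → Fin 4 → k) : Set (Pt k n) := {p | ∃ x, x ≠ 0 ∧ p.1 = ray b x}

/-- `A` is an apartment. -/
def IsApt (A : Set (Pt k n)) : Prop := ∃ b, (∀ i, IsFrame (b i)) ∧ A = apt b

/-- The faces of the closed chamber given by `b`. The chamber itself, for the Borel subgroup which
stabilizes the isotropic flags `⟨b i 0⟩ ⊂ ⟨b i 0, b i 1⟩`, consists of the directions `x` with
`x i 0 ≥ x i 1 ≥ 0` for all `i`; it has the vertices `⟨b i 0⟩` (`x i = (1, 0)`, the other
components zero) and `⟨b i 0, b i 1⟩` (`x i = (1, 1)`, the other components zero). In the face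
given by `A` and `B` the second vertex is omitted for `i ∈ A` and the first one for `i ∈ B`. -/
def face (b : Fin n → Fin 4 → Fin 4 → k) (A B : Set (Fin n)) : Set (Pt k n) :=
  {p | ∃ x : Fin n → Fin 2 → ℚ, x ≠ 0 ∧ (∀ i, 0 ≤ x i 1 ∧ x i 1 ≤ x i 0) ∧
    (∀ i ∈ A, x i 1 = 0) ∧ (∀ i ∈ B, x i 1 = x i 0) ∧ p.1 = ray b x}

/-- `s` is a closed simplex of the building: a nonempty face of a closed chamber. -/
def IsSimplex (s : Set (Pt k n)) : Prop :=
  s.Nonempty ∧ ∃ b A B, (∀ i, IsFrame (b i)) ∧ s = face b A B

/-- `S` is a subcomplex: a union of closed simplices. -/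
def IsSubcomplex (S : Set (Pt k n)) : Prop :=
  ∃ C : Set (Set (Pt k n)), (∀ s ∈ C, IsSimplex s) ∧ S = ⋃₀ C

/-- The invariant scalar product of two rational cocharacters of a maximal torus of `Sp₄ⁿ`. -/
def inp (x y : Fin n → Fin 2 → ℚ) : ℚ := ∑ i, (x i 0 * y i 0 + x i 1 * y i 1)

/-- The angle between two nonzero rational cocharacters of a maximal torus. -/
noncomputable def ang (x y : Fin n → Fin 2 → ℚ) : ℝ :=
  Real.arccos ((inp x y : ℝ) / (√(inp x x : ℝ) * √(inp y y : ℝ)))

/-- The distance of `p` and `q` is `θ`: they have the angular distance `θ` in a common apartment. -/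
def HasDist (p q : Pt k n) (θ : ℝ) : Prop :=
  ∃ b x y, (∀ i, IsFrame (b i)) ∧ x ≠ 0 ∧ y ≠ 0 ∧ p.1 = ray b x ∧ q.1 = ray b y ∧ θ = ang x y

/-- `p` and `q` are opposite: antipodal in a common apartment. -/
def Opp (p q : Pt k n) : Prop :=
  ∃ b x, (∀ i, IsFrame (b i)) ∧ x ≠ 0 ∧ p.1 = ray b x ∧ q.1 = ray b (-x)

/-- `r` lies on the geodesic from `p` to `q` (for points which are not opposite): in a common
apartment of `p` and `q` its direction is a nonzero combination `s x + t y`, `s, t ≥ 0`, of their
directions `x` and `y`. -/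
def Btw (p q r : Pt k n) : Prop :=
  ∃ (b : Fin n → Fin 4 → Fin 4 → k) (x y : Fin n → Fin 2 → ℚ) (s t : ℚ), (∀ i, IsFrame (b i)) ∧
    x ≠ 0 ∧ y ≠ 0 ∧ 0 ≤ s ∧ 0 ≤ t ∧ s • x + t • y ≠ 0 ∧ p.1 = ray b x ∧ q.1 = ray b y ∧
    r.1 = ray b (s • x + t • y)

/-- `S` is convex: it contains the geodesic between any two of its non-opposite points. -/
def Conv (S : Set (Pt k n)) : Prop := ∀ p ∈ S, ∀ q ∈ S, ¬ Opp p q → ∀ r, Btw p q r → r ∈ S

/-- `S` is closed in the metric topology. -/
def Closed (S : Set (Pt k n)) : Prop :=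
  ∀ p, (∀ ε : ℝ, 0 < ε → ∃ q ∈ S, ∃ θ, HasDist p q θ ∧ θ < ε) → p ∈ S

/-- `S` is completely reducible: every point of `S` has an opposite point in `S`. -/
def IsCR (S : Set (Pt k n)) : Prop := ∀ p ∈ S, ∃ q ∈ S, Opp p q

/-- `φ` is an automorphism of the building `Δ(ℚ)`: a bijection which preserves the apartments, the
simplices and the distances (in both directions). -/
def IsAut (φ : Equiv.Perm (Pt k n)) : Prop :=
  (∀ A : Set (Pt k n), IsApt A ↔ IsApt (φ '' A)) ∧
  (∀ s : Set (Pt k n), IsSimplex s ↔ IsSimplex (φ '' s)) ∧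
  ∀ p q θ, HasDist p q θ ↔ HasDist (φ p) (φ q) θ

/-- `c` is a centre of `S`: a point of `S` fixed by all building automorphisms that stabilize `S`. -/
def IsCentre (S : Set (Pt k n)) (c : Pt k n) : Prop :=
  c ∈ S ∧ ∀ φ : Equiv.Perm (Pt k n), IsAut φ → φ '' S = S → φ c = c

/-- `S` has the dimension `2 n - 1` of the building: it contains all directions of rational
cocharacters near `x`, for some nonzero rational cocharacter `x` of some maximal torus. -/
def FullDim (S : Set (Pt k n)) : Prop :=
  ∃ (b : Fin n → Fin 4 → Fin 4 → k) (x : Fin n → Fin 2 → ℚ) (ε : ℚ), (∀ i, IsFrame (b i)) ∧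
    x ≠ 0 ∧ 0 < ε ∧ ∀ y : Fin n → Fin 2 → ℚ, (∀ i j, |y i j - x i j| < ε) →
      ∀ p : Pt k n, p.1 = ray b y → p ∈ S

end

end Pool.Agent.TH494.CQ
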