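import Pool.Agent.TH494.CQ.Lin

/-!
# The special isogeny of `Sp₄` in characteristic two, on filtrations
-/

set_option autoImplicit false

namespace Pool.Agent.TH494.CQ

variable {k : Type} [Field k]

/-- the class of `u ∧ v` in the four-dimensional quotient of `ω^⊥ ⊂ Λ² k⁴` -/
def mu (u v : Fin 4 → k) : Fin 4 → k :=
  ![u 0 * v 1 - u 1 * v 0, u 0 * v 3 - u 3 * v 0, u 2 * v 3 - u 3 * v 2, u 1 * v 2 - u 2 * v 1]

/-- the symplectic basis attached to a symplectic basis -/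
def tb (b : Fin 4 → Fin 4 → k) : Fin 4 → Fin 4 → k :=
  ![mu (b 0) (b 1), mu (b 0) (b 3), mu (b 2) (b 3), mu (b 1) (b 2)]

/-- the weights: `(x, y) ↦ (x + y, x - y)` -/
def mm (x : Fin 2 → ℚ) : Fin 2 → ℚ := ![x 0 + x 1, x 0 - x 1]

/-- the Frobenius map -/
def fr (u : Fin 4 → k) : Fin 4 → k := fun i => u i ^ 2

/-- the isogeny on filtrations -/
def Phi (F : ℚ → Submodule k (Fin 4 → k)) (c : ℚ) : Submodule k (Fin 4 → k) :=
  Submodule.span k {w | ∃ (a a' : ℚ) (u v : Fin 4 → k), c ≤ a + a' ∧ u ∈ F a ∧ v ∈ F a' ∧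
    om u v = 0 ∧ w = mu u v}

lemma mm_mm (x : Fin 2 → ℚ) : mm (mm x) = (2 : ℚ) • x := by
  funext i
  fin_cases i
  · show x 0 + x 1 + (x 0 - x 1) = 2 * x 0
    ring
  · show x 0 + x 1 - (x 0 - x 1) = 2 * x 1
    ring

lemma mm_smul (t : ℚ) (x : Fin 2 → ℚ) : mm (t • x) = t • mm x := by
  funext i
  fin_cases i
  · show t * x 0 + t * x 1 = t * (x 0 + x 1)
    ring
  · show t * x 0 - t * x 1 = t * (x 0 - x 1)
    ring

lemma mm_ne {x : Fin 2 → ℚ} (hx : x ≠ 0) : mm x ≠ 0 := by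
  intro h
  apply hx
  have h1 : mm (mm x) = 0 := by
    rw [h]
    funext i
    fin_cases i <;> simp [mm]
  rw [mm_mm] at h1
  simpa using h1

section char2

variable (h2 : (2 : k) = 0)

include h2

lemma om_mu {u v u' v' : Fin 4 → k} (h : om u v = 0) (h' : om u' v' = 0) :
    om (mu u v) (mu u' v') = om u u' * om v v' + om u v' * om v u' := by
  simp only [om, mu, Matrix.cons_val_zero, Matrix.cons_val_one, Matrix.cons_val] at h h' ⊢
  linear_combination (-(u' 0 * v' 2 - u' 2 * v' 0 + (u' 1 * v' 3 - u' 3 * v' 1)) +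
    (u' 0 * v' 2 - u' 2 * v' 0)) * h + (u 0 * v 2 - u 2 * v 0) * h' +
    (-((u 0 * v' 2 - u 2 * v' 0 + (u 1 * v' 3 - u 3 * v' 1)) *
      (v 0 * u' 2 - v 2 * u' 0 + (v 1 * u' 3 - v 3 * u' 1))) -
      (u 2 * v 3 - u 3 * v 2) * (u' 0 * v' 1 - u' 1 * v' 0) -
      (u 1 * v 2 - u 2 * v 1) * (u' 0 * v' 3 - u' 3 * v' 0) -
      (u 0 * v 2 - u 2 * v 0) * (u' 0 * v' 2 - u' 2 * v' 0)) * h2

lemma neg_eq' (a : k) : -a = a := by linear_combination (-a) * h2

lemma mu_comm (u v : Fin 4 → k) : mu u v = mu v u := by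
  funext i
  fin_cases i
  · show u 0 * v 1 - u 1 * v 0 = v 0 * u 1 - v 1 * u 0
    linear_combination (u 0 * v 1 - u 1 * v 0) * h2
  · show u 0 * v 3 - u 3 * v 0 = v 0 * u 3 - v 3 * u 0
    linear_combination (u 0 * v 3 - u 3 * v 0) * h2
  · show u 2 * v 3 - u 3 * v 2 = v 2 * u 3 - v 3 * u 2
    linear_combination (u 2 * v 3 - u 3 * v 2) * h2
  · show u 1 * v 2 - u 2 * v 1 = v 1 * u 2 - v 2 * u 1
    linear_combination (u 1 * v 2 - u 2 * v 1) * h2

/-- twice the isogeny is the Frobenius map -/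
lemma mu_mu {u v w : Fin 4 → k} (hv : om u v = 0) (hw : om u w = 0) (hvw : om v w = 1) :
    mu (mu u v) (mu u w) = fr u := by
  simp only [om] at hv hw hvw
  funext i
  fin_cases i
  · show (u 0 * v 1 - u 1 * v 0) * (u 0 * w 3 - u 3 * w 0) -
      (u 0 * v 3 - u 3 * v 0) * (u 0 * w 1 - u 1 * w 0) = u 0 ^ 2
    linear_combination (-(u 0) * v 0) * hw + (u 0 * w 0) * hv + u 0 ^ 2 * hvw
  · show (u 0 * v 1 - u 1 * v 0) * (u 1 * w 2 - u 2 * w 1) -
      (u 1 * v 2 - u 2 * v 1) * (u 0 * w 1 - u 1 * w 0) = u 1 ^ 2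
    linear_combination (u 1 * v 1) * hw - (u 1 * w 1) * hv - u 1 ^ 2 * hvw - u 1 ^ 2 * h2
  · show (u 2 * v 3 - u 3 * v 2) * (u 1 * w 2 - u 2 * w 1) -
      (u 1 * v 2 - u 2 * v 1) * (u 2 * w 3 - u 3 * w 2) = u 2 ^ 2
    linear_combination (-(u 2) * v 2) * hw + (u 2 * w 2) * hv + u 2 ^ 2 * hvw
  · show (u 0 * v 3 - u 3 * v 0) * (u 2 * w 3 - u 3 * w 2) -
      (u 2 * v 3 - u 3 * v 2) * (u 0 * w 3 - u 3 * w 0) = u 3 ^ 2
    linear_combination (-(u 3) * v 3) * hw + (u 3 * w 3) * hv + u 3 ^ 2 * hvw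

lemma frame_tb {b : Fin 4 → Fin 4 → k} (hb : IsFrame b) : IsFrame (tb b) := by
  obtain ⟨h01, h02, h03, h10, h12, h13, h20, h21, h23, h30, h31, h32⟩ := fr_val hb
  refine isFrame_of ?_ ?_ ?_ ?_ ?_ ?_
  · show om (mu (b 0) (b 1)) (mu (b 0) (b 3)) = 0
    rw [om_mu h2 h01 h03, om_self, h03]; ring
  · show om (mu (b 0) (b 1)) (mu (b 2) (b 3)) = 1
    rw [om_mu h2 h01 h23, h02, h13, h03, h12]; ring
  · show om (mu (b 0) (b 1)) (mu (b 1) (b 2)) = 0
    rw [om_mu h2 h01 h12, h01, h12, h02, om_self]; ring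
  · show om (mu (b 0) (b 3)) (mu (b 2) (b 3)) = 0
    rw [om_mu h2 h03 h23, h02, om_self, h03, h32]; ring
  · show om (mu (b 0) (b 3)) (mu (b 1) (b 2)) = 1
    rw [om_mu h2 h03 h12, h01, h32, h02, h31]
    linear_combination (-1 : k) * h2
  · show om (mu (b 2) (b 3)) (mu (b 1) (b 2)) = 0
    rw [om_mu h2 h23 h12, h21, h32, om_self, h31]; ring

lemma tb_tb {b : Fin 4 → Fin 4 → k} (hb : IsFrame b) : tb (tb b) = fun i => fr (b i) := by
  obtain ⟨h01, h02, h03, h10, h12, h13, h20, h21, h23, h30, h31, h32⟩ := fr_val hb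
  funext i
  fin_cases i
  · show mu (mu (b 0) (b 1)) (mu (b 0) (b 3)) = fr (b 0)
    exact mu_mu h2 h01 h03 h13
  · show mu (mu (b 0) (b 1)) (mu (b 1) (b 2)) = fr (b 1)
    rw [mu_comm h2 (b 0) (b 1)]
    exact mu_mu h2 h10 h12 h02
  · show mu (mu (b 2) (b 3)) (mu (b 1) (b 2)) = fr (b 2)
    rw [mu_comm h2 (b 1) (b 2)]
    exact mu_mu h2 h23 h21 (by rw [h31, neg_eq' h2])
  · show mu (mu (b 0) (b 3)) (mu (b 2) (b 3)) = fr (b 3)
    rw [mu_comm h2 (b 0) (b 3), mu_comm h2 (b 2) (b 3)]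
    exact mu_mu h2 h30 h32 h02

lemma om_fr (u v : Fin 4 → k) : om (fr u) (fr v) = om u v ^ 2 := by
  simp only [om, fr]
  linear_combination (-(u 2 * v 0) ^ 2 - (u 3 * v 1) ^ 2 + (u 0 * v 2) * (u 2 * v 0) +
    (u 1 * v 3) * (u 3 * v 1) - (u 0 * v 2 - u 2 * v 0) * (u 1 * v 3 - u 3 * v 1)) * h2

/-- the isogeny maps the filtration of a cocharacter to the one of the image cocharacter -/
lemma Phi_flt {b : Fin 4 → Fin 4 → k} (hb : IsFrame b) (x : Fin 2 → ℚ) :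
    Phi (flt b x) = flt (tb b) (mm x) := by
  obtain ⟨h01, h02, h03, h10, h12, h13, h20, h21, h23, h30, h31, h32⟩ := fr_val hb
  have hT := frame_tb h2 hb
  funext c
  apply le_antisymm
  · unfold Phi
    rw [Submodule.span_le]
    rintro w ⟨a, a', u, v, hc, hu, hv, huv, rfl⟩
    rw [mem_flt hb] at hu hv
    obtain ⟨u2, u3, u0, u1⟩ := hu
    obtain ⟨v2, v3, v0, v1⟩ := hv
    show mu u v ∈ flt (tb b) (mm x) c
    rw [mem_flt hT]
    have key : ∀ (p q r s : k) (m m' : ℚ), (p ≠ 0 → a ≤ m) → (q ≠ 0 → a' ≤ m') →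
        (r ≠ 0 → a ≤ m') → (s ≠ 0 → a' ≤ m) → p * q + r * s ≠ 0 → c ≤ m + m' := by
      intro p q r s m m' hp hq hr hs hne
      by_cases h : p * q = 0
      · have h3 : r * s ≠ 0 := by
          intro h4
          rw [h, h4, add_zero] at hne
          exact hne rfl
        have h5 := hr (left_ne_zero_of_mul h3)
        have h6 := hs (right_ne_zero_of_mul h3)
        linarith
      · have h5 := hp (left_ne_zero_of_mul h)
        have h6 := hq (right_ne_zero_of_mul h)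
        linarith
    refine ⟨?_, ?_, ?_, ?_⟩
    · show om (mu u v) (mu (b 2) (b 3)) ≠ 0 → c ≤ x 0 + x 1
      rw [om_mu h2 huv h23]
      exact key _ _ _ _ _ _ u2 v3 u3 v2
    · show om (mu u v) (mu (b 1) (b 2)) ≠ 0 → c ≤ x 0 - x 1
      rw [om_mu h2 huv h12]
      intro hne
      have := key _ _ _ _ _ _ u1 v2 u2 v1 hne
      linarith
    · show om (mu u v) (mu (b 0) (b 1)) ≠ 0 → c ≤ -(x 0 + x 1)
      rw [om_mu h2 huv h01]
      intro hne
      have := key _ _ _ _ _ _ u0 v1 u1 v0 hne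
      linarith
    · show om (mu u v) (mu (b 0) (b 3)) ≠ 0 → c ≤ -(x 0 - x 1)
      rw [om_mu h2 huv h03]
      intro hne
      have := key _ _ _ _ _ _ u0 v3 u3 v0 hne
      linarith
  · unfold flt
    rw [Submodule.span_le]
    rintro w ⟨i, hi, rfl⟩
    have hm : ∀ i, b i ∈ flt b x (wt x i) := fun i => Submodule.subset_span ⟨i, le_rfl, rfl⟩
    fin_cases i
    · exact Submodule.subset_span ⟨wt x 0, wt x 1, b 0, b 1, hi, hm 0, hm 1, h01, rfl⟩
    · exact Submodule.subset_span ⟨wt x 0, wt x 3, b 0, b 3, by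
        change c ≤ x 0 - x 1 at hi
        show c ≤ x 0 + -x 1
        linarith, hm 0, hm 3, h03, rfl⟩
    · exact Submodule.subset_span ⟨wt x 2, wt x 3, b 2, b 3, by
        change c ≤ -(x 0 + x 1) at hi
        show c ≤ -x 0 + -x 1
        linarith, hm 2, hm 3, h23, rfl⟩
    · exact Submodule.subset_span ⟨wt x 1, wt x 2, b 1, b 2, by
        change c ≤ -(x 0 - x 1) at hi
        show c ≤ x 1 + -x 0
        linarith, hm 1, hm 2, h12, rfl⟩

lemma frame_fr {b : Fin 4 → Fin 4 → k} (hb : IsFrame b) : IsFrame (fun i => fr (b i)) := by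
  rw [← tb_tb h2 hb]
  exact frame_tb h2 (frame_tb h2 hb)

/-- the Frobenius map on filtrations is injective -/
lemma fr_inj {b b' : Fin 4 → Fin 4 → k} (hb : IsFrame b) (hb' : IsFrame b') {x x' : Fin 2 → ℚ}
    (h : flt (fun i => fr (b i)) x = flt (fun i => fr (b' i)) x') : flt b x = flt b' x' := by
  have key : ∀ {b : Fin 4 → Fin 4 → k} (_ : IsFrame b) (x : Fin 2 → ℚ) (c : ℚ) (u : Fin 4 → k),
      fr u ∈ flt (fun i => fr (b i)) x c ↔ u ∈ flt b x c := by
    intro b hb x c u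
    rw [mem_flt (frame_fr h2 hb), mem_flt hb]
    simp only [om_fr h2, ne_eq, pow_eq_zero_iff, OfNat.ofNat_ne_zero, not_false_eq_true]
  funext c
  ext u
  rw [← key hb, ← key hb', h]

/-- the isogeny on filtrations is injective -/
lemma Phi_inj {b b' : Fin 4 → Fin 4 → k} (hb : IsFrame b) (hb' : IsFrame b') {x x' : Fin 2 → ℚ}
    (h : flt (tb b) (mm x) = flt (tb b') (mm x')) : flt b x = flt b' x' := by
  have h1 : Phi (flt (tb b) (mm x)) = Phi (flt (tb b') (mm x')) := by rw [h]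
  rw [Phi_flt h2 (frame_tb h2 hb), Phi_flt h2 (frame_tb h2 hb'), tb_tb h2 hb, tb_tb h2 hb',
    mm_mm, mm_mm] at h1
  have h3 := fr_inj h2 hb hb' h1
  funext c
  have h4 := congrFun h3 (2 * c)
  rw [flt_smul _ _ (by norm_num), flt_smul _ _ (by norm_num)] at h4
  have h5 : 2 * c / 2 = c := by ring
  rwa [h5] at h4

end char2

/-- every symplectic basis is in the image, if `k` is perfect -/
lemma tb_surj (h2 : (2 : k) = 0) (hk : ∀ a : k, ∃ r : k, r ^ 2 = a) {c : Fin 4 → Fin 4 → k}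
    (hc : IsFrame c) : ∃ b : Fin 4 → Fin 4 → k, IsFrame b ∧ tb b = c := by
  choose r hr using hk
  set b : Fin 4 → Fin 4 → k := fun i j => r (c i j) with hbd
  have hbc : (fun i => fr (b i)) = c := by
    funext i j
    exact hr (c i j)
  obtain ⟨h01, h02, h03, h10, h12, h13, h20, h21, h23, h30, h31, h32⟩ := fr_val hc
  have key : ∀ i j, om (b i) (b j) ^ 2 = om (c i) (c j) := by
    intro i j
    rw [← om_fr h2]
    conv_rhs => rw [← hbc]
  have k0 : ∀ i j, om (c i) (c j) = 0 → om (b i) (b j) = 0 := by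
    intro i j h
    have := key i j
    rw [h] at this
    exact pow_eq_zero_iff (two_ne_zero) |>.1 this
  have k1 : ∀ i j, om (c i) (c j) = 1 → om (b i) (b j) = 1 := by
    intro i j h
    have h3 := key i j
    rw [h] at h3
    have h4 : (om (b i) (b j) - 1) ^ 2 = 0 := by
      linear_combination h3 + (1 - om (b i) (b j)) * h2
    have h5 := pow_eq_zero_iff (two_ne_zero) |>.1 h4
    linear_combination h5
  have hb : IsFrame b := isFrame_of (k0 _ _ h01) (k1 _ _ h02) (k0 _ _ h03) (k0 _ _ h12)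
    (k1 _ _ h13) (k0 _ _ h23)
  exact ⟨tb b, frame_tb h2 hb, by rw [tb_tb h2 hb, hbc]⟩

end Pool.Agent.TH494.CQ
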