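import Pool.Agent.TH494.CQ.Comp

/-!
# Failure of the centre conjecture for closed convex subsets of rational buildings
-/

set_option autoImplicit false

namespace Pool.Agent.TH494.CQ

variable {k : Type} [Field k] {n : ℕ}

/-- the coordinates of the counterexample -/
def DN (n : ℕ) : Set (Fin n → Fin 2 → ℚ) := {x | x ≠ 0 ∧ ∀ i, x i ∈ D1}

lemma DN_ne {x : Fin n → Fin 2 → ℚ} (hx : x ∈ DN n) : x ≠ 0 := hx.1

/-- the components of a point of the cone in other coordinates -/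
lemma comps {b b0 : Fin n → Fin 4 → Fin 4 → k} {p : Pt k n} (hp : p ∈ pts b0 (DN n))
    {x : Fin n → Fin 2 → ℚ} (hx : p.1 = ray b x) :
    ∃ z : Fin n → Fin 2 → ℚ, (∀ i, z i ∈ D1) ∧ ∀ i, flt (b i) (x i) = flt (b0 i) (z i) := by
  obtain ⟨z, hz, hpz⟩ := hp
  rw [hx] at hpz
  obtain ⟨t, ht, h⟩ := ray_eq_iff.1 hpz
  exact ⟨fun i => t • z i, fun i => D1_smul (hz.2 i) ht.le, h⟩

lemma conv_arc {b0 : Fin n → Fin 4 → Fin 4 → k} (hb0 : ∀ i, IsFrame (b0 i)) :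
    Conv (pts b0 (DN n)) := by
  rintro p hp q hq - r ⟨b, x, y, s, t, hb, hx, hy, hs, ht, hne, hpx, hqy, hr⟩
  obtain ⟨z, hz, h1⟩ := comps hp hpx
  obtain ⟨w, hw, h2⟩ := comps hq hqy
  have h3 : ∀ i, flt (b i) ((s • x + t • y) i) = flt (b0 i) ((s • z + t • w) i) := fun i =>
    comb_flt (hb i) (hb0 i) (hz i) (hw i) (h1 i) (h2 i) hs ht
  refine ⟨s • z + t • w, ⟨?_, fun i => D1_comb (hz i) (hw i) hs ht⟩, ?_⟩
  · intro h
    apply hne
    funext i
    have h4 := h3 i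
    rw [h] at h4
    exact flt_zero_right (hb i) (hb0 i) h4
  · rw [hr]
    exact ray_eq_iff.2 ⟨1, one_pos, fun i => by rw [one_smul, h3]⟩

lemma not_cr {b0 : Fin n → Fin 4 → Fin 4 → k} (hb0 : ∀ i, IsFrame (b0 i))
    {z : Fin n → Fin 2 → ℚ} (hz : z ∈ DN n) : ¬ IsCR (pts b0 (DN n)) := by
  intro h
  obtain ⟨q, hq, b, x, hb, hx, hpx, hqx⟩ := h (mk b0 z hb0 (DN_ne hz)) ⟨z, hz, rfl⟩
  obtain ⟨u, hu, h1⟩ := comps ⟨z, hz, rfl⟩ hpx
  obtain ⟨w, hw, h2⟩ := comps hq hqx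
  apply hx
  funext i
  have h3 := comb_flt (hb i) (hb0 i) (hu i) (hw i) (h1 i) (h2 i) zero_le_one zero_le_one
  rw [one_smul, one_smul, one_smul, one_smul] at h3
  have h4 : x i + (-x) i = 0 := add_neg_cancel (x i)
  rw [h4] at h3
  have h5 := flt_zero_right (hb0 i) (hb i) h3.symm
  have h6 : u i = 0 := by
    by_contra hne
    have h7 := (D1_reg (hu i) hne).1
    have h8 := (hw i).1
    have h9 : u i 1 + w i 1 = 0 := congrFun h5 1
    linarith
  have h7 := h1 i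
  rw [h6] at h7
  exact flt_zero_right (hb i) (hb0 i) h7

/-- the interior cocharacter -/
def zz (n : ℕ) : Fin n → Fin 2 → ℚ := fun _ => ![5, 2]

lemma zz_mem [NeZero n] : zz n ∈ DN n := by
  refine ⟨?_, fun i => ⟨?_, ?_, ?_⟩⟩
  · intro h
    have h1 : (5 : ℚ) = 0 := congrFun (congrFun h 0) 0
    norm_num at h1
  · show (0 : ℚ) ≤ 2
    norm_num
  · show (2 : ℚ) * 2 ≤ 5
    norm_num
  · show (5 : ℚ) ≤ 3 * 2
    norm_num

lemma not_sub [NeZero n] {b0 : Fin n → Fin 4 → Fin 4 → k} (hb0 : ∀ i, IsFrame (b0 i)) :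
    ¬ IsSubcomplex (pts b0 (DN n)) := by
  rintro ⟨C, hC, hS⟩
  have hp : mk b0 (zz n) hb0 (DN_ne zz_mem) ∈ pts b0 (DN n) := ⟨zz n, zz_mem, rfl⟩
  have hp' := hp
  rw [hS] at hp'
  obtain ⟨s, hs, hps⟩ := hp'
  have hsub : s ⊆ pts b0 (DN n) := by
    rw [hS]
    exact Set.subset_sUnion_of_mem hs
  obtain ⟨-, b, A, B, hb, rfl⟩ := hC s hs
  obtain ⟨x, hx0, hx1, hA, hB, hx⟩ := hps
  obtain ⟨t, ht, h1⟩ := ray_eq_iff.1 hx
  have h2 : ∀ i, zz n i = t • x i := by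
    intro i
    refine lemN (hb0 i) (hb i) ?_ ?_ ?_ ?_ (h1 i)
    · show (0 : ℚ) ≤ 2
      norm_num
    · show (2 : ℚ) ≤ 5
      norm_num
    · exact mul_nonneg ht.le (hx1 i).1
    · exact mul_le_mul_of_nonneg_left (hx1 i).2 ht.le
  have hA' : ∀ i, i ∉ A := by
    intro i hi
    have h3 : (2 : ℚ) = t * x i 1 := congrFun (h2 i) 1
    rw [hA i hi] at h3
    norm_num at h3
  have hB' : ∀ i, i ∉ B := by
    intro i hi
    have h3 : (2 : ℚ) = t * x i 1 := congrFun (h2 i) 1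
    have h4 : (5 : ℚ) = t * x i 0 := congrFun (h2 i) 0
    rw [hB i hi, ← h4] at h3
    norm_num at h3
  have hv : (fun _ : Fin n => (![1, 0] : Fin 2 → ℚ)) ≠ 0 := by
    intro h
    have h1 : (1 : ℚ) = 0 := congrFun (congrFun h 0) 0
    norm_num at h1
  have hmem : mk b (fun _ : Fin n => (![1, 0] : Fin 2 → ℚ)) hb hv ∈ face b A B := by
    refine ⟨_, hv, fun i => ⟨?_, ?_⟩, fun i hi => absurd hi (hA' i), fun i hi => absurd hi (hB' i),
      rfl⟩
    · show (0 : ℚ) ≤ 0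
      norm_num
    · show (0 : ℚ) ≤ 1
      norm_num
  obtain ⟨w, hw, h3⟩ := comps (hsub hmem) rfl
  obtain ⟨w1, w2⟩ := D1_cham (hw 0)
  have h4 : (![1, 0] : Fin 2 → ℚ) = w 0 := by
    refine lemN (hb 0) (hb0 0) ?_ ?_ w1 w2 (h3 0)
    · show (0 : ℚ) ≤ 0
      norm_num
    · show (0 : ℚ) ≤ 1
      norm_num
  have h5 := (hw 0).2.2
  rw [← h4] at h5
  have h6 : (1 : ℚ) ≤ 3 * 0 := h5
  norm_num at h6

lemma inp_self (x : Fin n → Fin 2 → ℚ) : inp x x = ∑ i, dot (x i) (x i) := rfl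

lemma inp_pos {x : Fin n → Fin 2 → ℚ} (hx : x ≠ 0) : 0 < inp x x := by
  rw [inp_self]
  obtain ⟨i, hi⟩ := Function.ne_iff.1 hx
  refine Finset.sum_pos' (fun i _ => dot_self_nonneg (x i)) ⟨i, Finset.mem_univ i, ?_⟩
  exact lt_of_le_of_ne (dot_self_nonneg _) fun h => hi (dot_self_zero h.symm)

/-- two directions at a small angle have near components -/
lemma ang_comp {x y : Fin n → Fin 2 → ℚ} (hx : x ≠ 0) (hy : y ≠ 0) {ε : ℝ} (h0 : 0 < ε)
    (h : ang x y < ε) (i : Fin n) :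
    (dot (x i) (x i) : ℝ) / √(inp x x : ℝ) ^ 2 -
      2 * ((dot (x i) (y i) : ℝ) / (√(inp x x : ℝ) * √(inp y y : ℝ))) +
      (dot (y i) (y i) : ℝ) / √(inp y y : ℝ) ^ 2 ≤ ε ^ 2 := by
  have hX : (0 : ℝ) < inp x x := by exact_mod_cast inp_pos hx
  have hY : (0 : ℝ) < inp y y := by exact_mod_cast inp_pos hy
  set N := √(inp x x : ℝ) with hN
  set M := √(inp y y : ℝ) with hM
  have hN0 : 0 < N := Real.sqrt_pos.2 hX
  have hM0 : 0 < M := Real.sqrt_pos.2 hY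
  have hN2 : N ^ 2 = inp x x := Real.sq_sqrt hX.le
  have hM2 : M ^ 2 = inp y y := Real.sq_sqrt hY.le
  set T : Fin n → ℝ := fun i => (dot (x i) (x i) : ℝ) / N ^ 2 -
    2 * ((dot (x i) (y i) : ℝ) / (N * M)) + (dot (y i) (y i) : ℝ) / M ^ 2 with hT
  have hTn : ∀ i, 0 ≤ T i := by
    intro i
    have : T i = ((x i 0 : ℝ) / N - (y i 0 : ℝ) / M) ^ 2 + ((x i 1 : ℝ) / N - (y i 1 : ℝ) / M) ^ 2 := by
      simp only [hT, dot]
      push_cast
      field_simp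
      ring
    rw [this]
    positivity
  have hsum : ∑ i, T i = 2 - 2 * ((inp x y : ℝ) / (N * M)) := by
    simp only [hT]
    rw [Finset.sum_add_distrib, Finset.sum_sub_distrib, ← Finset.sum_div, ← Finset.mul_sum,
      ← Finset.sum_div, ← Finset.sum_div]
    have e1 : ∑ i, ((dot (x i) (x i) : ℚ) : ℝ) = N ^ 2 := by
      rw [hN2, inp_self]
      push_cast
      rfl
    have e2 : ∑ i, ((dot (y i) (y i) : ℚ) : ℝ) = M ^ 2 := by
      rw [hM2, inp_self]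
      push_cast
      rfl
    have e3 : ∑ i, ((dot (x i) (y i) : ℚ) : ℝ) = inp x y := by
      unfold inp dot
      push_cast
      rfl
    rw [e1, e2, e3, div_self (by positivity), div_self (by positivity)]
    ring
  have hTi : T i ≤ 2 - 2 * ((inp x y : ℝ) / (N * M)) := by
    rw [← hsum]
    exact Finset.single_le_sum (fun i _ => hTn i) (Finset.mem_univ i)
  -- the cosine
  have hang : ang x y = Real.arccos ((inp x y : ℝ) / (N * M)) := rfl
  have hle2 : (inp x y : ℝ) / (N * M) ≤ 1 := by linarith [hTn i]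
  have hle1 : -1 ≤ (inp x y : ℝ) / (N * M) := by
    have hplus : 0 ≤ 2 + 2 * ((inp x y : ℝ) / (N * M)) := by
      have h9 : ∑ i, (((x i 0 : ℝ) / N + (y i 0 : ℝ) / M) ^ 2 +
          ((x i 1 : ℝ) / N + (y i 1 : ℝ) / M) ^ 2) = 2 + 2 * ((inp x y : ℝ) / (N * M)) := by
        have h10 : ∀ i, (((x i 0 : ℝ) / N + (y i 0 : ℝ) / M) ^ 2 +
          ((x i 1 : ℝ) / N + (y i 1 : ℝ) / M) ^ 2) = T i + 4 * ((dot (x i) (y i) : ℝ) / (N * M)) := by
          intro i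
          simp only [hT, dot]
          push_cast
          field_simp
          ring
        simp_rw [h10]
        rw [Finset.sum_add_distrib, hsum, ← Finset.mul_sum, ← Finset.sum_div]
        have e3 : ∑ i, ((dot (x i) (y i) : ℚ) : ℝ) = inp x y := by
          unfold inp dot
          push_cast
          rfl
        rw [e3]
        ring
      rw [← h9]
      exact Finset.sum_nonneg fun i _ => by positivity
    linarith
  have hcos : Real.cos (ang x y) = (inp x y : ℝ) / (N * M) := by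
    rw [hang, Real.cos_arccos hle1 hle2]
  have h4 := Real.one_sub_sq_div_two_le_cos (x := ang x y)
  have h5 : 0 ≤ ang x y := Real.arccos_nonneg _
  have h6 : ang x y ^ 2 ≤ ε ^ 2 := pow_le_pow_left₀ h5 h.le 2
  show T i ≤ ε ^ 2
  rw [hcos] at h4
  linarith

lemma eps_lim {K r N δ : ℝ} (hK : 0 < K) (hN : 0 ≤ N) (hδ : 0 < δ)
    (h : ∀ ε : ℝ, 0 < ε → ε ≤ δ → -(K * ε * N) ≤ r) : 0 ≤ r := by
  by_contra hcon
  rw [not_le] at hcon
  have hKN : 0 < K * (N + 1) := by positivity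
  set ε : ℝ := min δ (-r / (2 * (K * (N + 1)))) with hε
  have hε0 : 0 < ε := lt_min hδ (div_pos (by linarith) (by positivity))
  have h3 := h ε hε0 (min_le_left _ _)
  have h4 : ε ≤ -r / (2 * (K * (N + 1))) := min_le_right _ _
  rw [le_div_iff₀ (by positivity)] at h4
  have h5 : K * ε * N ≤ ε * (K * (N + 1)) := by
    have : 0 ≤ K * ε := by positivity
    nlinarith
  nlinarith

lemma closed_arc {b0 : Fin n → Fin 4 → Fin 4 → k} (hb0 : ∀ i, IsFrame (b0 i)) :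
    Closed (pts b0 (DN n)) := by
  intro p hp
  obtain ⟨b, x, hb, hx, hpx⟩ := p.2
  set N := √(inp x x : ℝ) with hN
  have hX : (0 : ℝ) < inp x x := by exact_mod_cast inp_pos hx
  have hN0 : 0 < N := Real.sqrt_pos.2 hX
  have hN2 : N ^ 2 = inp x x := Real.sq_sqrt hX.le
  -- one component
  have comp : ∀ i, ∃ X ∈ D1, flt (b i) (x i) = flt (b0 i) X := by
    intro i
    by_cases hxi : x i = 0
    · exact ⟨0, D1_zero, by rw [hxi]; exact flt_zero (hb i) (hb0 i)⟩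
    have hdi : (0 : ℝ) < dot (x i) (x i) := by
      have : 0 < dot (x i) (x i) :=
        lt_of_le_of_ne (dot_self_nonneg _) fun h => hxi (dot_self_zero h.symm)
      exact_mod_cast this
    set δ : ℝ := √(dot (x i) (x i) : ℝ) / N with hδ
    have hδ0 : 0 < δ := div_pos (Real.sqrt_pos.2 hdi) hN0
    have hδ2 : δ ^ 2 * N ^ 2 = dot (x i) (x i) := by
      rw [hδ, div_pow, div_mul_cancel₀ _ (by positivity), Real.sq_sqrt hdi.le]
    have h1 : ∀ ε : ℝ, 0 < ε → ε ≤ δ / 10 → ∃ X : Fin 2 → ℚ, 0 ≤ X 1 ∧ X 1 ≤ X 0 ∧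
        flt (b i) (x i) = flt (b0 i) X ∧ -(3 * ε * N) ≤ (X 0 : ℝ) - 2 * X 1 ∧
        -(4 * ε * N) ≤ 3 * (X 1 : ℝ) - X 0 := by
      intro ε h0 h1
      obtain ⟨q, hq, θ, ⟨c, x', y, hc, hx', hy, hpx', hqy, rfl⟩, hlt⟩ := hp ε h0
      rw [hpx] at hpx'
      obtain ⟨t, ht, h2⟩ := ray_eq_iff.1 hpx'.symm
      have ht' : (0 : ℝ) < t := by exact_mod_cast ht
      obtain ⟨z, hz, h3⟩ := comps hq hqy
      -- the lengths
      have hlen : ∀ j, dot (x' j) (x' j) = t ^ 2 * dot (x j) (x j) := by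
        intro j
        rw [dot_eq (hc j) (hb j) (h2 j)]
        unfold dot
        simp only [Pi.smul_apply, smul_eq_mul]
        ring
      have hinp : inp x' x' = t ^ 2 * inp x x := by
        rw [inp_self, inp_self, Finset.mul_sum]
        exact Finset.sum_congr rfl fun j _ => hlen j
      have hN' : √(inp x' x' : ℝ) = t * N := by
        rw [hinp]
        push_cast
        rw [Real.sqrt_mul (by positivity), Real.sqrt_sq ht'.le]
      have hM0 : 0 < √(inp y y : ℝ) := by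
        apply Real.sqrt_pos.2
        exact_mod_cast inp_pos hy
      have h4 := ang_comp hx' hy h0 hlt i
      rw [hN'] at h4
      have h5 : δ ^ 2 * (t * N) ^ 2 ≤ (dot (x' i) (x' i) : ℝ) := by
        rw [hlen i, mul_pow]
        push_cast
        have : δ ^ 2 * ((t : ℝ) ^ 2 * N ^ 2) = t ^ 2 * (δ ^ 2 * N ^ 2) := by ring
        rw [this, hδ2]
      obtain ⟨X, a1, a2, a3, a4, a5⟩ := near_flt (hc i) (hb0 i) (hz i) (h3 i)
        (mul_pos ht' hN0) hM0 h0 h1 h5 h4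
      have hti : 0 < t⁻¹ := inv_pos.2 ht
      refine ⟨t⁻¹ • X, mul_nonneg hti.le a1, mul_le_mul_of_nonneg_left a2 hti.le, ?_, ?_, ?_⟩
      · have h6 := flt_scale ((h2 i).symm.trans a3) hti
        rwa [smul_smul, inv_mul_cancel₀ ht.ne', one_smul] at h6
      · simp only [Pi.smul_apply, smul_eq_mul]
        push_cast
        have h7 := mul_le_mul_of_nonneg_left a4 (inv_pos.2 ht').le
        have h8 : (t : ℝ)⁻¹ * -(3 * ε * (t * N)) = -(3 * ε * N) := by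
          field_simp
        rw [h8] at h7
        linarith
      · simp only [Pi.smul_apply, smul_eq_mul]
        push_cast
        have h7 := mul_le_mul_of_nonneg_left a5 (inv_pos.2 ht').le
        have h8 : (t : ℝ)⁻¹ * -(4 * ε * (t * N)) = -(4 * ε * N) := by
          field_simp
        rw [h8] at h7
        linarith
    obtain ⟨X, X1, X2, hX, -, -⟩ := h1 (δ / 10) (by positivity) le_rfl
    have h2 : ∀ ε : ℝ, 0 < ε → ε ≤ δ / 10 → -(3 * ε * N) ≤ (X 0 : ℝ) - 2 * X 1 ∧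
        -(4 * ε * N) ≤ 3 * (X 1 : ℝ) - X 0 := by
      intro ε h0 h3
      obtain ⟨Z, Z1, Z2, hZ, Z3, Z4⟩ := h1 ε h0 h3
      rw [hX] at hZ
      have e := lemN (hb0 i) (hb0 i) X1 X2 Z1 Z2 hZ
      subst e
      exact ⟨Z3, Z4⟩
    refine ⟨X, ⟨X1, ?_, ?_⟩, hX⟩
    · have := eps_lim (K := 3) (r := (X 0 : ℝ) - 2 * X 1) (by norm_num) hN0.le
        (by positivity : 0 < δ / 10) fun ε h0 h3 => (h2 ε h0 h3).1
      have h5 : (2 : ℝ) * X 1 ≤ X 0 := by linarith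
      exact_mod_cast h5
    · have := eps_lim (K := 4) (r := 3 * (X 1 : ℝ) - X 0) (by norm_num) hN0.le
        (by positivity : 0 < δ / 10) fun ε h0 h3 => (h2 ε h0 h3).2
      have h5 : (X 0 : ℝ) ≤ 3 * X 1 := by linarith
      exact_mod_cast h5
  choose X hXD hXf using comp
  refine ⟨X, ⟨?_, hXD⟩, ?_⟩
  · rintro rfl
    apply hx
    funext i
    exact flt_zero_right (hb i) (hb0 i) (hXf i)
  · rw [hpx]
    exact ray_eq_iff.2 ⟨1, one_pos, fun i => by rw [one_smul, hXf]⟩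

/-- the standard basis -/
def std (k : Type) [Field k] : Fin 4 → Fin 4 → k := fun i => Pi.single i 1

lemma frame_std : IsFrame (std k) := fun _ _ => rfl

lemma tb_std : tb (std k) = std k := by
  funext i j
  fin_cases i <;> fin_cases j <;> simp [tb, mu, std]

/-- the standard bases -/
def stdn (k : Type) [Field k] (n : ℕ) : Fin n → Fin 4 → Fin 4 → k := fun _ => std k

lemma frame_stdn : ∀ i, IsFrame (stdn k n i) := fun _ => frame_std

lemma tb_stdn : tbn (stdn k n) = stdn k n := by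
  funext i
  exact tb_std

lemma mm_D1 {x : Fin 2 → ℚ} (hx : x ∈ D1) : mm x ∈ D1 := by
  obtain ⟨h1, h2, h3⟩ := hx
  refine ⟨?_, ?_, ?_⟩
  · show 0 ≤ x 0 - x 1
    linarith
  · show 2 * (x 0 - x 1) ≤ x 0 + x 1
    linarith
  · show x 0 + x 1 ≤ 3 * (x 0 - x 1)
    linarith

lemma mmn_DN : mmn '' DN n = DN n :=
  mmn_image (fun _ hx => ⟨mmn_ne hx.1, fun i => mm_D1 (hx.2 i)⟩)
    fun _ hx => ⟨half_ne hx.1, fun i => D1_smul (mm_D1 (hx.2 i)) (by norm_num)⟩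

lemma no_fix (h2 : (2 : k) = 0) (hk : ∀ a : k, ∃ r : k, r ^ 2 = a) (p : Pt k n)
    (hp : p ∈ pts (stdn k n) (DN n)) : phi h2 hk p ≠ p := by
  intro hfix
  obtain ⟨z, hz, hpz⟩ := hp
  have h1 := (phi_ray h2 hk frame_stdn z).2 hpz
  rw [hfix, hpz, tb_stdn] at h1
  obtain ⟨t, ht, h⟩ := ray_eq_iff.1 h1.symm
  obtain ⟨i, hi⟩ := Function.ne_iff.1 hz.1
  have hz' := D1_smul (hz.2 i) ht.le
  have hm := mm_D1 (hz.2 i)
  have e : mm (z i) = t • z i := lemN frame_std frame_std (D1_cham hm).1 (D1_cham hm).2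
    (D1_cham hz').1 (D1_cham hz').2 (h i)
  have e0 : z i 0 + z i 1 = t * z i 0 := congrFun e 0
  have e1 : z i 0 - z i 1 = t * z i 1 := congrFun e 1
  have hz1 := (D1_reg (hz.2 i) hi).1
  have h3 : (z i 0 - z i 1) ^ 2 = 2 * z i 1 ^ 2 := by
    linear_combination (z i 0) * e1 - (z i 1) * e0
  have h4 : ((z i 0 - z i 1) / z i 1) ^ 2 = 2 := by
    rw [div_pow, h3]
    field_simp
  have h5 : √(2 : ℝ) = |(((z i 0 - z i 1) / z i 1 : ℚ) : ℝ)| := by
    rw [← Real.sqrt_sq_eq_abs]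
    congr 1
    exact_mod_cast h4.symm
  exact irrational_sqrt_two ⟨|(z i 0 - z i 1) / z i 1|, by rw [h5]; push_cast; rfl⟩

lemma full_dim [NeZero n] : FullDim (pts (stdn k n) (DN n)) := by
  refine ⟨stdn k n, zz n, 1 / 4, frame_stdn, DN_ne zz_mem, by norm_num, fun y hy p hp => ?_⟩
  have h0 : ∀ i, 5 - 1 / 4 < y i 0 ∧ y i 0 < 5 + 1 / 4 := by
    intro i
    have h1 : |y i 0 - 5| < 1 / 4 := hy i 0
    rw [abs_lt] at h1
    exact ⟨by linarith [h1.1], by linarith [h1.2]⟩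
  have h1 : ∀ i, 2 - 1 / 4 < y i 1 ∧ y i 1 < 2 + 1 / 4 := by
    intro i
    have h1 : |y i 1 - 2| < 1 / 4 := hy i 1
    rw [abs_lt] at h1
    exact ⟨by linarith [h1.1], by linarith [h1.2]⟩
  refine ⟨y, ⟨?_, fun i => ⟨?_, ?_, ?_⟩⟩, hp⟩
  · rintro rfl
    have h3 : (2 : ℚ) - 1 / 4 < 0 := (h1 0).1
    norm_num at h3
  · linarith [(h1 i).1]
  · linarith [(h1 i).2, (h0 i).1]
  · linarith [(h1 i).1, (h0 i).2]

/-- the main statement -/
theorem main [NeZero n] (h2 : (2 : k) = 0) (hk : ∀ a : k, ∃ r : k, r ^ 2 = a) :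
    ∃ S : Set (Pt k n), FullDim S ∧ (∃ b, (∀ i, IsFrame (b i)) ∧ S ⊆ face b ∅ ∅) ∧ Conv S ∧
      Closed S ∧ ¬ IsSubcomplex S ∧ ¬ IsCR S ∧
      ∃ φ : Equiv.Perm (Pt k n), IsAut φ ∧ φ '' S = S ∧ ∀ p ∈ S, φ p ≠ p := by
  refine ⟨pts (stdn k n) (DN n), full_dim, ⟨stdn k n, frame_stdn, ?_⟩, conv_arc frame_stdn,
    closed_arc frame_stdn, not_sub frame_stdn, not_cr frame_stdn zz_mem, phi h2 hk,
    isAut_phi h2 hk, ?_, no_fix h2 hk⟩
  · rintro p ⟨x, hx, hp⟩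
    exact ⟨x, hx.1, fun i => D1_cham (hx.2 i), fun i hi => absurd hi (Set.notMem_empty i),
      fun i hi => absurd hi (Set.notMem_empty i), hp⟩
  · rw [image_pts h2 hk frame_stdn _ fun x hx => DN_ne hx, tb_stdn, mmn_DN]

end Pool.Agent.TH494.CQ
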