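import Pool.Agent.TH494.CQ.Iso

/-!
# The building automorphism given by the special isogeny
-/

set_option autoImplicit false

namespace Pool.Agent.TH494.CQ

variable {k : Type} [Field k] {n : ℕ}

lemma flt_scale {b b' : Fin 4 → Fin 4 → k} {x x' : Fin 2 → ℚ} (h : flt b x = flt b' x') {s : ℚ}
    (hs : 0 < s) : flt b (s • x) = flt b' (s • x') := by
  funext c
  rw [flt_smul _ _ hs, flt_smul _ _ hs, h]

lemma ray_eq_iff {b b' : Fin n → Fin 4 → Fin 4 → k} {x x' : Fin n → Fin 2 → ℚ} :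
    ray b x = ray b' x' ↔ ∃ t : ℚ, 0 < t ∧ ∀ i, flt (b i) (x i) = flt (b' i) (t • x' i) := by
  constructor
  · intro h
    have h1 : (fun i => flt (b i) (x i)) ∈ ray b x := ⟨1, one_pos, fun i => by rw [one_smul]⟩
    rw [h] at h1
    exact h1
  · rintro ⟨t, ht, h⟩
    have key : ∀ s : ℚ, 0 < s → ∀ i, flt (b i) (s • x i) = flt (b' i) (s • t • x' i) :=
      fun s hs i => flt_scale (h i) hs
    ext F
    constructor
    · rintro ⟨s, hs, hF⟩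
      exact ⟨s * t, mul_pos hs ht, fun i => by rw [hF, key s hs, smul_smul]⟩
    · rintro ⟨s, hs, hF⟩
      refine ⟨s / t, div_pos hs ht, fun i => ?_⟩
      rw [hF, key _ (div_pos hs ht), smul_smul, div_mul_cancel₀ _ ht.ne']

lemma ray_smul (b : Fin n → Fin 4 → Fin 4 → k) (x : Fin n → Fin 2 → ℚ) {t : ℚ} (ht : 0 < t) :
    ray b (t • x) = ray b x := ray_eq_iff.2 ⟨t, ht, fun _ => rfl⟩

/-- the point with the given direction -/
def mk (b : Fin n → Fin 4 → Fin 4 → k) (x : Fin n → Fin 2 → ℚ) (hb : ∀ i, IsFrame (b i))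
    (hx : x ≠ 0) : Pt k n := ⟨ray b x, b, x, hb, hx, rfl⟩

/-- the isogeny on families of filtrations -/
def PhiN (F : Fin n → ℚ → Submodule k (Fin 4 → k)) : Fin n → ℚ → Submodule k (Fin 4 → k) :=
  fun i => Phi (F i)

/-- the image torus -/
def tbn (b : Fin n → Fin 4 → Fin 4 → k) : Fin n → Fin 4 → Fin 4 → k := fun i => tb (b i)

/-- the image cocharacter -/
def mmn (x : Fin n → Fin 2 → ℚ) : Fin n → Fin 2 → ℚ := fun i => mm (x i)

lemma mmn_mmn (x : Fin n → Fin 2 → ℚ) : mmn (mmn x) = (2 : ℚ) • x := by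
  funext i
  exact mm_mm (x i)

lemma mmn_smul (t : ℚ) (x : Fin n → Fin 2 → ℚ) : mmn (t • x) = t • mmn x := by
  funext i
  exact mm_smul t (x i)

lemma mm_zero : mm 0 = 0 := by
  funext i
  fin_cases i <;> simp [mm]

lemma mmn_ne {x : Fin n → Fin 2 → ℚ} (hx : x ≠ 0) : mmn x ≠ 0 := by
  intro h
  apply hx
  have h1 : mmn (mmn x) = 0 := by
    rw [h]
    funext i
    exact mm_zero
  rw [mmn_mmn] at h1
  rcases smul_eq_zero.1 h1 with h3 | h3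
  · norm_num at h3
  · exact h3

lemma mmn_surj (y : Fin n → Fin 2 → ℚ) : mmn ((1 / 2 : ℚ) • mmn y) = y := by
  rw [mmn_smul, mmn_mmn, smul_smul]
  norm_num

lemma half_ne {y : Fin n → Fin 2 → ℚ} (hy : y ≠ 0) : (1 / 2 : ℚ) • mmn y ≠ 0 :=
  smul_ne_zero (by norm_num) (mmn_ne hy)

lemma image_ray (h2 : (2 : k) = 0) {b : Fin n → Fin 4 → Fin 4 → k} (hb : ∀ i, IsFrame (b i))
    (x : Fin n → Fin 2 → ℚ) : PhiN '' ray b x = ray (tbn b) (mmn x) := by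
  ext F
  constructor
  · rintro ⟨G, ⟨t, ht, hG⟩, rfl⟩
    exact ⟨t, ht, fun i => by
      show Phi (G i) = flt (tb (b i)) (t • mm (x i))
      rw [hG, Phi_flt h2 (hb i), mm_smul]⟩
  · rintro ⟨t, ht, hF⟩
    refine ⟨fun i => flt (b i) (t • x i), ⟨t, ht, fun _ => rfl⟩, ?_⟩
    funext i
    show Phi (flt (b i) (t • x i)) = F i
    rw [hF, Phi_flt h2 (hb i), mm_smul]
    rfl

/-- the map on points -/
noncomputable def phiF (h2 : (2 : k) = 0) (p : Pt k n) : Pt k n :=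
  ⟨PhiN '' p.1, by
    obtain ⟨b, x, hb, hx, hp⟩ := p.2
    exact ⟨tbn b, mmn x, fun i => frame_tb h2 (hb i), mmn_ne hx, by rw [hp, image_ray h2 hb]⟩⟩

lemma phiF_ray (h2 : (2 : k) = 0) {p : Pt k n} {b : Fin n → Fin 4 → Fin 4 → k}
    (hb : ∀ i, IsFrame (b i)) (x : Fin n → Fin 2 → ℚ) :
    (phiF h2 p).1 = ray (tbn b) (mmn x) ↔ p.1 = ray b x := by
  constructor
  · intro h
    obtain ⟨b', x', hb', hx', hp⟩ := p.2
    have h1 : PhiN '' p.1 = ray (tbn b) (mmn x) := h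
    rw [hp, image_ray h2 hb'] at h1
    obtain ⟨t, ht, h3⟩ := ray_eq_iff.1 h1
    rw [hp]
    refine ray_eq_iff.2 ⟨t, ht, fun i => Phi_inj h2 (hb' i) (hb i) ?_⟩
    rw [mm_smul]
    exact h3 i
  · intro h
    show PhiN '' p.1 = _
    rw [h, image_ray h2 hb]

lemma phiF_inj (h2 : (2 : k) = 0) : Function.Injective (phiF (n := n) h2) := by
  intro p q h
  obtain ⟨b, x, hb, hx, hq⟩ := q.2
  apply Subtype.ext
  rw [hq, ← phiF_ray h2 hb, h, phiF_ray h2 hb, hq]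

lemma tbn_surj (h2 : (2 : k) = 0) (hk : ∀ a : k, ∃ r : k, r ^ 2 = a)
    {c : Fin n → Fin 4 → Fin 4 → k} (hc : ∀ i, IsFrame (c i)) :
    ∃ b : Fin n → Fin 4 → Fin 4 → k, (∀ i, IsFrame (b i)) ∧ tbn b = c := by
  choose b hb h using fun i => tb_surj h2 hk (hc i)
  exact ⟨b, hb, funext h⟩

lemma phiF_surj (h2 : (2 : k) = 0) (hk : ∀ a : k, ∃ r : k, r ^ 2 = a) :
    Function.Surjective (phiF (n := n) h2) := by
  intro q
  obtain ⟨c, y, hc, hy, hq⟩ := q.2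
  obtain ⟨b, hb, rfl⟩ := tbn_surj h2 hk hc
  refine ⟨mk b ((1 / 2 : ℚ) • mmn y) hb (half_ne hy), Subtype.ext ?_⟩
  have h1 := (phiF_ray h2 (p := mk b ((1 / 2 : ℚ) • mmn y) hb (half_ne hy)) hb
    ((1 / 2 : ℚ) • mmn y)).2 rfl
  rw [h1, mmn_surj, hq]

/-- the permutation of the points -/
noncomputable def phi (h2 : (2 : k) = 0) (hk : ∀ a : k, ∃ r : k, r ^ 2 = a) :
    Equiv.Perm (Pt k n) := Equiv.ofBijective (phiF h2) ⟨phiF_inj h2, phiF_surj h2 hk⟩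

section auto

variable (h2 : (2 : k) = 0) (hk : ∀ a : k, ∃ r : k, r ^ 2 = a)

lemma phi_ray {p : Pt k n} {b : Fin n → Fin 4 → Fin 4 → k} (hb : ∀ i, IsFrame (b i))
    (x : Fin n → Fin 2 → ℚ) :
    (phi h2 hk p).1 = ray (tbn b) (mmn x) ↔ p.1 = ray b x := phiF_ray h2 hb x

/-- the points of an apartment with coordinates in `D` -/
def pts (b : Fin n → Fin 4 → Fin 4 → k) (D : Set (Fin n → Fin 2 → ℚ)) : Set (Pt k n) :=
  {p | ∃ x ∈ D, p.1 = ray b x}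

lemma image_pts {b : Fin n → Fin 4 → Fin 4 → k} (hb : ∀ i, IsFrame (b i))
    (D : Set (Fin n → Fin 2 → ℚ)) (hD : ∀ x ∈ D, x ≠ 0) :
    phi h2 hk '' pts b D = pts (tbn b) (mmn '' D) := by
  ext q
  constructor
  · rintro ⟨p, ⟨x, hx, hp⟩, rfl⟩
    exact ⟨mmn x, ⟨x, hx, rfl⟩, (phi_ray h2 hk hb x).2 hp⟩
  · rintro ⟨_, ⟨x, hx, rfl⟩, hq⟩
    refine ⟨mk b x hb (hD x hx), ⟨x, hx, rfl⟩, Subtype.ext ?_⟩
    rw [(phi_ray h2 hk (p := mk b x hb (hD x hx)) hb x).2 rfl, hq]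

/-- a set of cocharacters which is mapped into the other one and back -/
lemma mmn_image {D D' : Set (Fin n → Fin 2 → ℚ)} (h : ∀ x ∈ D, mmn x ∈ D')
    (h' : ∀ x ∈ D', (1 / 2 : ℚ) • mmn x ∈ D) : mmn '' D = D' := by
  ext y
  constructor
  · rintro ⟨x, hx, rfl⟩
    exact h x hx
  · intro hy
    exact ⟨(1 / 2 : ℚ) • mmn y, h' y hy, mmn_surj y⟩

/-- the coordinates of a face -/
def FD (A B : Set (Fin n)) : Set (Fin n → Fin 2 → ℚ) :=
  {x | x ≠ 0 ∧ (∀ i, 0 ≤ x i 1 ∧ x i 1 ≤ x i 0) ∧ (∀ i ∈ A, x i 1 = 0) ∧ ∀ i ∈ B, x i 1 = x i 0}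

lemma apt_eq (b : Fin n → Fin 4 → Fin 4 → k) : apt b = pts b {x | x ≠ 0} := rfl

lemma face_eq (b : Fin n → Fin 4 → Fin 4 → k) (A B : Set (Fin n)) :
    face b A B = pts b (FD A B) := by
  ext p
  constructor
  · rintro ⟨x, h1, h2, h3, h4, h5⟩
    exact ⟨x, ⟨h1, h2, h3, h4⟩, h5⟩
  · rintro ⟨x, ⟨h1, h2, h3, h4⟩, h5⟩
    exact ⟨x, h1, h2, h3, h4, h5⟩

lemma FD_mm {A B : Set (Fin n)} {x : Fin n → Fin 2 → ℚ} (hx : x ∈ FD A B) : mmn x ∈ FD B A := by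
  obtain ⟨h1, h2, h3, h4⟩ := hx
  refine ⟨mmn_ne h1, fun i => ⟨?_, ?_⟩, fun i hi => ?_, fun i hi => ?_⟩
  · show 0 ≤ x i 0 - x i 1
    linarith [(h2 i).2]
  · show x i 0 - x i 1 ≤ x i 0 + x i 1
    linarith [(h2 i).1]
  · show x i 0 - x i 1 = 0
    linarith [h4 i hi]
  · show x i 0 - x i 1 = x i 0 + x i 1
    linarith [h3 i hi]

lemma FD_half {A B : Set (Fin n)} {x : Fin n → Fin 2 → ℚ} (hx : x ∈ FD A B) :
    (1 / 2 : ℚ) • x ∈ FD A B := by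
  obtain ⟨h1, h2, h3, h4⟩ := hx
  refine ⟨smul_ne_zero (by norm_num) h1, fun i => ⟨?_, ?_⟩, fun i hi => ?_, fun i hi => ?_⟩
  · show 0 ≤ (1 / 2 : ℚ) * x i 1
    linarith [(h2 i).1]
  · show (1 / 2 : ℚ) * x i 1 ≤ (1 / 2 : ℚ) * x i 0
    linarith [(h2 i).2]
  · show (1 / 2 : ℚ) * x i 1 = 0
    linarith [h3 i hi]
  · show (1 / 2 : ℚ) * x i 1 = (1 / 2 : ℚ) * x i 0
    linarith [h4 i hi]

lemma image_apt {b : Fin n → Fin 4 → Fin 4 → k} (hb : ∀ i, IsFrame (b i)) :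
    phi h2 hk '' apt b = apt (tbn b) := by
  rw [apt_eq, apt_eq, image_pts h2 hk hb {x | x ≠ 0} (fun x hx => hx)]
  rw [mmn_image (D := {x | x ≠ 0}) (D' := {x | x ≠ 0}) (fun x hx => mmn_ne hx)
    (fun x hx => half_ne hx)]

lemma image_face {b : Fin n → Fin 4 → Fin 4 → k} (hb : ∀ i, IsFrame (b i)) (A B : Set (Fin n)) :
    phi h2 hk '' face b A B = face (tbn b) B A := by
  rw [face_eq, face_eq, image_pts h2 hk hb _ (fun x hx => hx.1),
    mmn_image (fun x hx => FD_mm hx) (fun x hx => FD_half (FD_mm hx))]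

lemma inp_mm (x y : Fin n → Fin 2 → ℚ) : inp (mmn x) (mmn y) = 2 * inp x y := by
  unfold inp
  rw [Finset.mul_sum]
  refine Finset.sum_congr rfl fun i _ => ?_
  show (x i 0 + x i 1) * (y i 0 + y i 1) + (x i 0 - x i 1) * (y i 0 - y i 1) = _
  ring

lemma ang_mm (x y : Fin n → Fin 2 → ℚ) : ang (mmn x) (mmn y) = ang x y := by
  unfold ang
  congr 1
  rw [inp_mm, inp_mm, inp_mm]
  push_cast
  have h3 : (0 : ℝ) ≤ 2 := by norm_num
  rw [Real.sqrt_mul h3, Real.sqrt_mul h3]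
  have h4 : √(2 : ℝ) * √((inp x x : ℚ) : ℝ) * (√(2 : ℝ) * √((inp y y : ℚ) : ℝ)) =
      2 * (√((inp x x : ℚ) : ℝ) * √((inp y y : ℚ) : ℝ)) := by
    have h5 : √(2 : ℝ) * √(2 : ℝ) = 2 := Real.mul_self_sqrt h3
    linear_combination (√((inp x x : ℚ) : ℝ) * √((inp y y : ℚ) : ℝ)) * h5
  rw [h4, mul_div_mul_left _ _ (by norm_num : (2 : ℝ) ≠ 0)]

/-- the isogeny gives a building automorphism -/
lemma isAut_phi : IsAut (phi (n := n) h2 hk) := by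
  have hinj : Function.Injective (Set.image (phi (n := n) h2 hk)) :=
    (phi h2 hk).injective.image_injective
  refine ⟨?_, ?_, ?_⟩
  · intro A
    constructor
    · rintro ⟨b, hb, rfl⟩
      exact ⟨tbn b, fun i => frame_tb h2 (hb i), image_apt h2 hk hb⟩
    · rintro ⟨c, hc, h⟩
      obtain ⟨b, hb, rfl⟩ := tbn_surj h2 hk hc
      rw [← image_apt h2 hk hb] at h
      exact ⟨b, hb, hinj h⟩
  · intro s
    constructor
    · rintro ⟨hne, b, A, B, hb, rfl⟩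
      exact ⟨hne.image _, tbn b, B, A, fun i => frame_tb h2 (hb i), image_face h2 hk hb A B⟩
    · rintro ⟨hne, c, A, B, hc, h⟩
      obtain ⟨b, hb, rfl⟩ := tbn_surj h2 hk hc
      rw [← image_face h2 hk hb] at h
      exact ⟨Set.image_nonempty.1 hne, b, B, A, hb, hinj h⟩
  · intro p q θ
    constructor
    · rintro ⟨b, x, y, hb, hx, hy, hp, hq, hθ⟩
      exact ⟨tbn b, mmn x, mmn y, fun i => frame_tb h2 (hb i), mmn_ne hx, mmn_ne hy,
        (phi_ray h2 hk hb x).2 hp, (phi_ray h2 hk hb y).2 hq, by rw [ang_mm, hθ]⟩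
    · rintro ⟨c, x', y', hc, hx', hy', hp, hq, hθ⟩
      obtain ⟨b, hb, rfl⟩ := tbn_surj h2 hk hc
      rw [← mmn_surj x'] at hp hθ
      rw [← mmn_surj y'] at hq hθ
      refine ⟨b, (1 / 2 : ℚ) • mmn x', (1 / 2 : ℚ) • mmn y', hb, half_ne hx', half_ne hy',
        (phi_ray h2 hk hb _).1 hp, (phi_ray h2 hk hb _).1 hq, ?_⟩
      rw [hθ, ang_mm]

end auto

end Pool.Agent.TH494.CQ
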